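import Mathlib
import Pool.Agent.H547R3.Cyc

set_option autoImplicit false

/-!
Subword complexity of the parity words of the cycles of the 3x+1 map.
-/

namespace Pool.Agent.W42.Cpx

open Finset Pool.Agent.H319R2 Pool.Agent.H547R3

/-- the parity words of length `n` read along `Z` -/
def words (Z : Finset ℤ) (n : ℕ) : Finset (Fin n → ℤ) :=
  Z.image fun x => fun j : Fin n => T^[(j : ℕ)] x % 2

theorem words_inj {n : ℕ} {x y : ℤ} (hx : |x| < 2 ^ n) (hy : |y| < 2 ^ n)
    (h : (fun j : Fin (n + 1) => T^[(j : ℕ)] x % 2) = fun j : Fin (n + 1) => T^[(j : ℕ)] y % 2) :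
    x = y := by
  have h1 : (2 : ℤ) ^ (n + 1) ∣ x - y := by
    apply same_par
    intro i hi
    exact congrFun h ⟨i, hi⟩
  have h2 : |x - y| < 2 ^ (n + 1) := by
    refine lt_of_le_of_lt (abs_sub x y) ?_
    rw [pow_succ]; linarith
  have h3 : x - y = 0 := Int.eq_zero_of_abs_lt_dvd h1 h2
  linarith

theorem words_card (Z : Finset ℤ) (n : ℕ) :
    (Z.filter fun x => |x| < 2 ^ n).card ≤ (words Z (n + 1)).card := by
  classical
  apply card_le_card_of_injOn (fun x => fun j : Fin (n + 1) => T^[(j : ℕ)] x % 2)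
  · intro x hx
    rw [mem_coe, mem_filter] at hx
    rw [mem_coe]
    exact mem_image_of_mem _ hx.1
  · intro x hx y hy h
    rw [mem_coe, mem_filter] at hx hy
    exact words_inj hx.2 hy.2 h

/-- **Lower bound for the subword complexity**, in terms of the speed of the logarithmic walk. -/
theorem main (a b C c : ℝ) (ha : a * Real.log 3 < Real.log 2) (hb : Real.log 2 < b * Real.log 3)
    (hc : c < Real.log 2 / (b * Real.log 3 - Real.log 2) + Real.log 2 / (Real.log 2 - a * Real.log 3)) :
    ∃ A : ℝ, 1 ≤ A ∧ ∀ Z : Finset ℤ, IsCycle Z →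
      (∀ x ∈ Z, ∀ k : ℕ, a * k - C ≤ od k x ∧ (od k x : ℝ) ≤ b * k + C) →
      ∀ n : ℕ, A * (1 + Real.log Z.card) ≤ n →
        min (Z.card : ℝ) (c * n) ≤ (words Z n).card := by
  classical
  have hl2 : 0 < Real.log 2 := Real.log_pos (by norm_num)
  have hl3 : 0 < Real.log 3 := Real.log_pos (by norm_num)
  obtain ⟨D, hD1, hD⟩ := min_bound
  obtain ⟨R, hR0, hR⟩ := rigid 0.96 (beta_lt.trans (by norm_num)) (by norm_num)
  set u : ℝ := b * Real.log 3 - Real.log 2 with hu
  set d : ℝ := Real.log 2 - a * Real.log 3 with hd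
  have hu0 : 0 < u := by rw [hu]; linarith
  have hd0 : 0 < d := by rw [hd]; linarith
  set κ : ℝ := Real.log 2 / u + Real.log 2 / d with hκ
  set G : ℝ := Real.log 2 + 14 + Real.log D + |C| * Real.log 3 + R with hG
  have hlD : 0 ≤ Real.log D := Real.log_nonneg hD1
  have hG0 : 0 < G := by
    have : 0 ≤ |C| * Real.log 3 := by positivity
    rw [hG]; linarith
  set E : ℝ := G / u + G / d + 1 with hE
  have hE0 : 0 < E := by positivity
  refine ⟨max 1 (E / (κ - c)), le_max_left _ _, ?_⟩
  intro Z hZ hfreq n hn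
  have hp : 0 < Z.card := hZ.card_pos
  have hpr : (1 : ℝ) ≤ Z.card := by exact_mod_cast hp
  have hlp : 0 ≤ Real.log Z.card := Real.log_nonneg hpr
  have hn1 : (1 : ℝ) ≤ n := by
    refine le_trans ?_ hn
    have h1 : (1 : ℝ) ≤ max 1 (E / (κ - c)) := le_max_left _ _
    nlinarith
  have hn1' : 1 ≤ n := by exact_mod_cast hn1
  obtain ⟨m, rfl⟩ : ∃ m, n = m + 1 := ⟨n - 1, by omega⟩
  by_cases hall : ∀ x ∈ Z, |x| < 2 ^ m
  · refine (min_le_left _ _).trans ?_
    have := words_card Z m
    rw [filter_true_of_mem hall] at this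
    exact_mod_cast this
  refine (min_le_right _ _).trans ?_
  push Not at hall
  obtain ⟨y, hyZ, hy⟩ := hall
  -- the least element
  obtain ⟨x0, hx0, hmin⟩ := exists_min_image Z (fun x => |x|) ⟨y, hyZ⟩
  have hx00 : x0 ≠ 0 := by
    rintro rfl
    obtain ⟨j, hj⟩ := hZ.back hx0 hyZ
    have h0 : ∀ j, T^[j] 0 = 0 := by
      intro j
      induction j with
      | zero => rfl
      | succ j ih => rw [Function.iterate_succ_apply', ih]; rfl
    rw [h0] at hj
    rw [← hj] at hy
    have : (0 : ℤ) < 2 ^ m := by positivity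
    simp at hy
    linarith
  obtain ⟨z, hzZ, hzpos, hzset, hzcard, -, -⟩ := hZ.normal
  have hmp : Function.minimalPeriod T x0 = Z.card := by
    obtain ⟨j, hj⟩ := hZ.back hzZ hx0
    rw [← hj, Function.minimalPeriod_apply_iterate, hzcard]
    exact Function.minimalPeriod_pos_iff_mem_periodicPts.1 hzpos
  set p := Z.card with hpdef
  have hinj : Set.InjOn (fun i => T^[i] x0) (Set.Iio p) := by
    rw [← hmp]; exact Function.iterate_injOn_Iio_minimalPeriod
  have hper : T^[p] x0 = x0 := by rw [← hmp]; exact Function.iterate_minimalPeriod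
  have hZset : Z = (range p).image fun i => T^[i] x0 := by
    symm
    apply eq_of_subset_of_card_le
    · intro w hw
      rw [mem_image] at hw
      obtain ⟨i, _, rfl⟩ := hw
      exact hZ.closed hx0 i
    · rw [card_image_of_injOn, card_range]
      intro i hi j hj h
      exact hinj (by simpa using hi) (by simpa using hj) h
  -- times above the level
  set S := (range p).filter fun i => 2 ^ m ≤ |T^[i] x0| with hS
  have hSne : S.Nonempty := by
    rw [hZset, mem_image] at hyZ
    obtain ⟨i, hi, rfl⟩ := hyZ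
    exact ⟨i, mem_filter.2 ⟨hi, hy⟩⟩
  set s := S.min' hSne with hs
  set t := S.max' hSne with ht
  have hsS : s ∈ S := min'_mem _ _
  have htS : t ∈ S := max'_mem _ _
  have hst : s ≤ t := min'_le _ _ htS
  rw [hS, mem_filter, mem_range] at hsS htS
  have hbase : ∀ N : ℝ, 1 ≤ N → N = 1 → R * N ^ ((0.96 : ℝ) - 1) = R := by
    intro N _ hN; rw [hN, Real.one_rpow, mul_one]
  have hnz : ∀ (w : ℤ) (j : ℕ), w ≠ 0 → (1 : ℝ) ≤ |((T^[j] w : ℤ) : ℝ)| := by
    intro w j hw
    have : (1 : ℤ) ≤ |T^[j] w| := Int.one_le_abs (iter_ne_zero hw j)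
    exact_mod_cast this
  -- the least element is polynomially bounded
  have hx0b := hD x0 p hp hx00 hper (fun j => hmin _ (hZ.closed hx0 j))
  have hx0pos : (0 : ℝ) < |(x0 : ℝ)| := lt_of_lt_of_le one_pos (hnz x0 0 hx00)
  have hlogx0 : Real.log |(x0 : ℝ)| ≤ Real.log D + 14 * Real.log p := by
    have h1 := Real.log_le_log hx0pos hx0b
    have hD0 : D ≠ 0 := (lt_of_lt_of_le one_pos hD1).ne'
    have hp14 : ((p : ℝ)) ^ 14 ≠ 0 := pow_ne_zero _ (lt_of_lt_of_le one_pos hpr).ne'
    rw [Real.log_mul hD0 hp14, Real.log_pow] at h1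
    exact_mod_cast h1
  -- time to reach the level
  have hlow : ∀ w : ℤ, 2 ^ m ≤ |w| → (m : ℝ) * Real.log 2 ≤ Real.log |(w : ℝ)| := by
    intro w hw
    rw [← Real.log_pow]
    apply Real.log_le_log (by positivity)
    exact_mod_cast hw
  have hup : (m : ℝ) * Real.log 2 ≤ Real.log |(x0 : ℝ)| + s * u + |C| * Real.log 3 + R := by
    have h1 := hR x0 s hx00 (hinj.mono (Set.Iio_subset_Iio hsS.1.le)) 1 le_rfl
      (fun j _ => hnz x0 j hx00)
    rw [hbase 1 le_rfl rfl] at h1
    have h2 := hlow _ hsS.2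
    have h3 := (hfreq x0 hx0 s).2
    have h4 := (abs_le.1 h1).2
    have h5 : (od s x0 : ℝ) * Real.log 3 ≤ (b * s + |C|) * Real.log 3 :=
      mul_le_mul_of_nonneg_right (h3.trans (by linarith [le_abs_self C])) hl3.le
    have h6 : (b * s + |C|) * Real.log 3 = s * u + s * Real.log 2 + |C| * Real.log 3 := by
      rw [hu]; ring
    linarith
  -- time to come back
  set k := p - t with hk
  have hkt : k + t = p := by omega
  have hdown : (m : ℝ) * Real.log 2 ≤ Real.log |(x0 : ℝ)| + k * d + |C| * Real.log 3 + R := by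
    set w := T^[t] x0 with hw
    have hwZ : w ∈ Z := hZ.closed hx0 t
    have hw0 : w ≠ 0 := iter_ne_zero hx00 t
    have hwk : T^[k] w = x0 := by
      rw [hw, ← Function.iterate_add_apply, hkt, hper]
    have hwinj : Set.InjOn (fun i => T^[i] w) (Set.Iio k) := by
      have hmpw : Function.minimalPeriod T w = p := by
        rw [hw, Function.minimalPeriod_apply_iterate, hmp]
        exact Function.minimalPeriod_pos_iff_mem_periodicPts.1 (by omega)
      have : Set.InjOn (fun i => T^[i] w) (Set.Iio p) := by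
        rw [← hmpw]; exact Function.iterate_injOn_Iio_minimalPeriod
      exact this.mono (Set.Iio_subset_Iio (by omega))
    have h1 := hR w k hw0 hwinj 1 le_rfl (fun j _ => hnz w j hw0)
    rw [hbase 1 le_rfl rfl, hwk] at h1
    have h2 := hlow _ htS.2
    have h3 := (hfreq w hwZ k).1
    have h4 := (abs_le.1 h1).1
    have h5 : (a * k - |C|) * Real.log 3 ≤ (od k w : ℝ) * Real.log 3 :=
      mul_le_mul_of_nonneg_right (le_trans (by linarith [le_abs_self C]) h3) hl3.le
    have h6 : (a * k - |C|) * Real.log 3 = k * Real.log 2 - k * d - |C| * Real.log 3 := by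
      rw [hd]; ring
    linarith
  -- count
  have hcount : s + k ≤ (Z.filter fun x => |x| < 2 ^ m).card + 1 := by
    have h1 : ((range s) ∪ (Ico (t + 1) p)).image (fun i => T^[i] x0) ⊆
        Z.filter fun x => |x| < 2 ^ m := by
      intro w hw
      rw [mem_image] at hw
      obtain ⟨i, hi, rfl⟩ := hw
      rw [mem_filter]
      refine ⟨hZ.closed hx0 i, ?_⟩
      by_contra hcon
      push Not at hcon
      rw [mem_union, mem_range, mem_Ico] at hi
      have hiS : i ∈ S := by
        rw [hS, mem_filter, mem_range]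
        refine ⟨?_, hcon⟩
        rcases hi with hi | hi
        · omega
        · exact hi.2
      rcases hi with hi | hi
      · have := min'_le S i hiS
        omega
      · have := le_max' S i hiS
        omega
    have h2 := card_le_card h1
    rw [card_image_of_injOn, card_union_of_disjoint, card_range, Nat.card_Ico] at h2
    · omega
    · rw [disjoint_left]
      intro i hi hi'
      rw [mem_range] at hi
      rw [mem_Ico] at hi'
      omega
    · intro i hi j hj h
      rw [mem_coe, mem_union, mem_range, mem_Ico] at hi hj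
      exact hinj (by rw [Set.mem_Iio]; omega) (by rw [Set.mem_Iio]; omega) h
  have hwc : ((Z.filter fun x => |x| < 2 ^ m).card : ℝ) ≤ (words Z (m + 1)).card := by
    exact_mod_cast words_card Z m
  have hcount' : (s : ℝ) + k ≤ (Z.filter fun x => |x| < 2 ^ m).card + 1 := by exact_mod_cast hcount
  refine le_trans ?_ hwc
  -- final computation
  have hκc : 0 < κ - c := by linarith
  have hnE : E * (1 + Real.log p) ≤ (κ - c) * ((m + 1 : ℕ) : ℝ) := by
    have h1 : E / (κ - c) * (1 + Real.log p) ≤ ((m + 1 : ℕ) : ℝ) := by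
      refine le_trans ?_ hn
      exact mul_le_mul_of_nonneg_right (le_max_right _ _) (by linarith)
    have h2 := mul_le_mul_of_nonneg_left h1 hκc.le
    have h3 : (κ - c) * (E / (κ - c) * (1 + Real.log p)) = E * (1 + Real.log p) := by
      field_simp
    linarith
  push_cast at hnE ⊢
  have hGb : Real.log 2 + Real.log |(x0 : ℝ)| + |C| * Real.log 3 + R ≤ G * (1 + Real.log p) := by
    have h1 : G * (1 + Real.log p) = G + G * Real.log p := by ring
    have h2 : 14 * Real.log p ≤ G * Real.log p := by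
      apply mul_le_mul_of_nonneg_right _ hlp
      have : 0 ≤ |C| * Real.log 3 := by positivity
      rw [hG]; linarith
    rw [h1]
    have h3 : G = Real.log 2 + 14 + Real.log D + |C| * Real.log 3 + R := rfl
    linarith
  have hs' : ((m : ℝ) + 1) * (Real.log 2 / u) - G / u * (1 + Real.log p) ≤ s := by
    have h1 : ((m : ℝ) + 1) * Real.log 2 - G * (1 + Real.log p) ≤ s * u := by linarith
    have h2 : (((m : ℝ) + 1) * Real.log 2 - G * (1 + Real.log p)) / u ≤ s := by
      rwa [div_le_iff₀ hu0]
    refine le_trans (le_of_eq ?_) h2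
    field_simp
  have hk' : ((m : ℝ) + 1) * (Real.log 2 / d) - G / d * (1 + Real.log p) ≤ k := by
    have h1 : ((m : ℝ) + 1) * Real.log 2 - G * (1 + Real.log p) ≤ k * d := by linarith
    have h2 : (((m : ℝ) + 1) * Real.log 2 - G * (1 + Real.log p)) / d ≤ k := by
      rwa [div_le_iff₀ hd0]
    refine le_trans (le_of_eq ?_) h2
    field_simp
  have hEe : E * (1 + Real.log p) = G / u * (1 + Real.log p) + G / d * (1 + Real.log p) +
      (1 + Real.log p) := by rw [hE]; ring
  have hκe : (κ - c) * ((m : ℝ) + 1) = ((m : ℝ) + 1) * (Real.log 2 / u) +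
      ((m : ℝ) + 1) * (Real.log 2 / d) - c * ((m : ℝ) + 1) := by rw [hκ]; ring
  linarith

end Pool.Agent.W42.Cpx
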