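import Mathlib
import Pool.Agent.W42.Cpx

set_option autoImplicit false

/-!
Finiteness of the set of cycles of low subword complexity.
-/

namespace Pool.Agent.W42.Cpx

open Finset Pool.Agent.H319R2 Pool.Agent.H547R3 Filter

theorem zero_iter (j : ℕ) : T^[j] 0 = 0 := by
  induction j with
  | zero => rfl
  | succ j ih => rw [Function.iterate_succ_apply', ih]; rfl

/-- a cycle is the orbit of any of its elements -/
theorem eq_orbit {Z : Finset ℤ} (hZ : IsCycle Z) {x : ℤ} (hx : x ∈ Z) :
    Function.minimalPeriod T x = Z.card ∧ Z = (range (Function.minimalPeriod T x)).image fun i => T^[i] x := by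
  classical
  obtain ⟨z, hzZ, hzpos, hzset, hzcard, -, -⟩ := hZ.normal
  have hmp : Function.minimalPeriod T x = Z.card := by
    obtain ⟨j, hj⟩ := hZ.back hzZ hx
    rw [← hj, Function.minimalPeriod_apply_iterate, hzcard]
    exact Function.minimalPeriod_pos_iff_mem_periodicPts.1 hzpos
  refine ⟨hmp, ?_⟩
  symm
  apply eq_of_subset_of_card_le
  · intro w hw
    rw [mem_image] at hw
    obtain ⟨i, _, rfl⟩ := hw
    exact hZ.closed hx i
  · rw [card_image_of_injOn, card_range, hmp]
    intro i hi j hj h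
    have hinj : Set.InjOn (fun i => T^[i] x) (Set.Iio (Function.minimalPeriod T x)) :=
      Function.iterate_injOn_Iio_minimalPeriod
    exact hinj (by simpa using hi) (by simpa using hj) h

/-- there are only finitely many cycles having an element in a given interval -/
theorem finite_of_min (L : ℤ) : {Z : Finset ℤ | IsCycle Z ∧ ∃ x ∈ Z, |x| ≤ L}.Finite := by
  classical
  apply Set.Finite.subset (Finset.finite_toSet ((Finset.Icc (-L) L).image fun x =>
    (range (Function.minimalPeriod T x)).image fun i => T^[i] x))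
  rintro Z ⟨hZ, x, hx, hxL⟩
  rw [mem_coe, mem_image]
  refine ⟨x, ?_, ((eq_orbit hZ hx).2).symm⟩
  rw [Finset.mem_Icc, ← abs_le]
  exact hxL

/-- there are only finitely many cycles with at most `P` elements -/
theorem finite_of_card (P : ℝ) : {Z : Finset ℤ | IsCycle Z ∧ (Z.card : ℝ) ≤ P}.Finite := by
  classical
  obtain ⟨D, hD1, hD⟩ := min_bound
  apply Set.Finite.subset (finite_of_min ⌈D * P ^ 14⌉)
  rintro Z ⟨hZ, hP⟩
  refine ⟨hZ, ?_⟩
  obtain ⟨x, hx, hmin⟩ := exists_min_image Z (fun x => |x|) (card_pos.1 hZ.card_pos)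
  refine ⟨x, hx, ?_⟩
  have hp : (1 : ℝ) ≤ Z.card := by exact_mod_cast hZ.card_pos
  by_cases h0 : x = 0
  · rw [h0, abs_zero]
    apply Int.ceil_nonneg
    have : (0 : ℝ) ≤ P := by linarith
    positivity
  · have hper : T^[Z.card] x = x := by
      rw [← (eq_orbit hZ hx).1]; exact Function.iterate_minimalPeriod
    have h1 := hD x Z.card hZ.card_pos h0 hper (fun j => hmin _ (hZ.closed hx j))
    have h2 : ((|x| : ℤ) : ℝ) ≤ (⌈D * P ^ 14⌉ : ℤ) := by
      push_cast
      refine h1.trans (le_trans ?_ (Int.le_ceil _))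
      apply mul_le_mul_of_nonneg_left _ (by linarith)
      exact pow_le_pow_left₀ (by linarith) hP 14
    exact_mod_cast h2

/-- **Finiteness.** -/
theorem finite_low (a b C c : ℝ) (ha : a * Real.log 3 < Real.log 2) (hb : Real.log 2 < b * Real.log 3)
    (hc : c < Real.log 2 / (b * Real.log 3 - Real.log 2) + Real.log 2 / (Real.log 2 - a * Real.log 3))
    (C' : ℝ) :
    {Z : Finset ℤ | IsCycle Z ∧
      (∀ x ∈ Z, ∀ k : ℕ, a * k - C ≤ od k x ∧ (od k x : ℝ) ≤ b * k + C) ∧
      ∀ n : ℕ, ((words Z n).card : ℝ) ≤ c * n + C'}.Finite := by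
  classical
  obtain ⟨c2, hc1, hc2⟩ := exists_between hc
  obtain ⟨A, hA1, hA⟩ := main a b C c2 ha hb hc2
  -- a bound for the number of elements
  have hlim : ∀ᶠ x : ℝ in atTop, |c| * (A * (1 + Real.log x) + 1) + |C'| < x := by
    have h1 : Tendsto (fun x : ℝ => (|c| * (A * (1 + Real.log x) + 1) + |C'|) / x) atTop (nhds 0) := by
      have h2 : Tendsto (fun x : ℝ => (|c| * (A + 1) + |C'|) / x + |c| * A * (Real.log x / x)) atTop
          (nhds (0 + |c| * A * 0)) := by
        apply Tendsto.add
        · exact Tendsto.div_atTop tendsto_const_nhds tendsto_id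
        · apply Tendsto.const_mul
          exact Real.isLittleO_log_id_atTop.tendsto_div_nhds_zero
      rw [mul_zero, add_zero] at h2
      refine h2.congr' ?_
      filter_upwards [eventually_gt_atTop 0] with x hx
      field_simp
      ring
    filter_upwards [h1.eventually (gt_mem_nhds (show (0 : ℝ) < 1 by norm_num)), eventually_gt_atTop 0]
      with x h3 h4
    rwa [div_lt_one h4] at h3
  obtain ⟨P1, hP1⟩ := eventually_atTop.1 hlim
  apply Set.Finite.subset (finite_of_card (max P1 (Real.exp (|C'| / (c2 - c)))))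
  rintro Z ⟨hZ, hfreq, hw⟩
  refine ⟨hZ, ?_⟩
  by_contra hcon
  push Not at hcon
  have hp : (1 : ℝ) ≤ Z.card := by exact_mod_cast hZ.card_pos
  have hlp : 0 ≤ Real.log Z.card := Real.log_nonneg hp
  have hA0 : 0 ≤ A * (1 + Real.log Z.card) := by positivity
  set n := ⌈A * (1 + Real.log Z.card)⌉₊ with hn
  have hn1 : A * (1 + Real.log Z.card) ≤ n := Nat.le_ceil _
  have hn2 : (n : ℝ) < A * (1 + Real.log Z.card) + 1 := Nat.ceil_lt_add_one hA0
  have h1 := hA Z hZ hfreq n hn1
  have h2 := h1.trans (hw n)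
  rcases min_le_iff.1 h2 with h3 | h3
  · have h4 := hP1 Z.card ((le_max_left _ _).trans hcon.le)
    have h5 : c * n ≤ |c| * (A * (1 + Real.log Z.card) + 1) := by
      calc c * n ≤ |c| * n := mul_le_mul_of_nonneg_right (le_abs_self c) (Nat.cast_nonneg _)
        _ ≤ _ := mul_le_mul_of_nonneg_left hn2.le (abs_nonneg _)
    have h6 := le_abs_self C'
    linarith
  · have h4 : (c2 - c) * n ≤ |C'| := by have := le_abs_self C'; linarith
    have h5 : (n : ℝ) ≤ |C'| / (c2 - c) := by
      rw [le_div_iff₀ (by linarith)]; linarith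
    have h6 : Real.log Z.card ≤ |C'| / (c2 - c) := by
      have : Real.log Z.card ≤ A * (1 + Real.log Z.card) := by nlinarith
      linarith
    have h7 : (Z.card : ℝ) ≤ Real.exp (|C'| / (c2 - c)) := by
      rwa [← Real.log_le_iff_le_exp (by linarith)]
    have h8 := (le_max_right P1 (Real.exp (|C'| / (c2 - c)))).trans_lt hcon
    linarith

end Pool.Agent.W42.Cpx
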