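import Mathlib
import Pool.Agent.H319R2.Basic

set_option autoImplicit false

/-!
Verification: the integers `x` with `0 < |x| < 2 ^ 15` which have the least absolute value in their
forward orbit are `1, -1, -5, -17`.
-/

namespace Pool.Agent.W42.Small

open Pool.Agent.H319R2

def sp (n : ℕ) : ℕ := bif Nat.beq (n % 2) 0 then n / 2 else (3 * n + 1) / 2

def sn (n : ℕ) : ℕ := bif Nat.beq (n % 2) 0 then n / 2 else (3 * n - 1) / 2

def below (f : ℕ → ℕ) (n0 : ℕ) : ℕ → ℕ → Bool
  | 0, _ => false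
  | k + 1, n => Nat.blt n n0 || below f n0 k (f n)

def test (f : ℕ → ℕ) (exc : List ℕ) (n : ℕ) : Bool := below f n 200 (f n) || exc.contains n

def blk (g : ℕ → Bool) : ℕ → ℕ → Bool
  | 0, _ => true
  | k + 1, s => g s && blk g k (s + 1)

theorem blk_spec (g : ℕ → Bool) (k : ℕ) : ∀ s, blk g k s = true → ∀ n, s ≤ n → n < s + k → g n = true := by
  induction k with
  | zero => intro s _ n h1 h2; omega
  | succ k ih =>
    intro s h n h1 h2
    rw [blk, Bool.and_eq_true] at h
    rcases Nat.eq_or_lt_of_le h1 with h3 | h3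
    · rw [← h3]; exact h.1
    · exact ih (s + 1) h.2 n h3 (by omega)

theorem below_spec (f : ℕ → ℕ) (n0 k : ℕ) : ∀ n, below f n0 k n = true → ∃ j, f^[j] n < n0 := by
  induction k with
  | zero => intro n h; simp [below] at h
  | succ k ih =>
    intro n h
    rw [below, Bool.or_eq_true] at h
    rcases h with h | h
    · refine ⟨0, ?_⟩
      simpa [Nat.blt] using h
    · obtain ⟨j, hj⟩ := ih (f n) h
      exact ⟨j + 1, by rwa [Function.iterate_succ_apply]⟩

theorem p0 : blk (test sp [1]) 4096 1 = true := by decide +kernel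
theorem p1 : blk (test sp [1]) 4096 4097 = true := by decide +kernel
theorem p2 : blk (test sp [1]) 4096 8193 = true := by decide +kernel
theorem p3 : blk (test sp [1]) 4096 12289 = true := by decide +kernel
theorem p4 : blk (test sp [1]) 4096 16385 = true := by decide +kernel
theorem p5 : blk (test sp [1]) 4096 20481 = true := by decide +kernel
theorem p6 : blk (test sp [1]) 4096 24577 = true := by decide +kernel
theorem p7 : blk (test sp [1]) 4096 28673 = true := by decide +kernel
theorem n0 : blk (test sn [1, 5, 17]) 4096 1 = true := by decide +kernel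
theorem n1 : blk (test sn [1, 5, 17]) 4096 4097 = true := by decide +kernel
theorem n2 : blk (test sn [1, 5, 17]) 4096 8193 = true := by decide +kernel
theorem n3 : blk (test sn [1, 5, 17]) 4096 12289 = true := by decide +kernel
theorem n4 : blk (test sn [1, 5, 17]) 4096 16385 = true := by decide +kernel
theorem n5 : blk (test sn [1, 5, 17]) 4096 20481 = true := by decide +kernel
theorem n6 : blk (test sn [1, 5, 17]) 4096 24577 = true := by decide +kernel
theorem n7 : blk (test sn [1, 5, 17]) 4096 28673 = true := by decide +kernel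

theorem allp (n : ℕ) (h1 : 1 ≤ n) (h2 : n < 32768) : test sp [1] n = true := by
  rcases (show n < 4097 ∨ (4097 ≤ n ∧ n < 8193) ∨ (8193 ≤ n ∧ n < 12289) ∨ (12289 ≤ n ∧ n < 16385) ∨
    (16385 ≤ n ∧ n < 20481) ∨ (20481 ≤ n ∧ n < 24577) ∨ (24577 ≤ n ∧ n < 28673) ∨ 28673 ≤ n by omega)
    with h | h | h | h | h | h | h | h
  · exact blk_spec _ _ _ p0 n h1 (by omega)
  · exact blk_spec _ _ _ p1 n h.1 (by omega)
  · exact blk_spec _ _ _ p2 n h.1 (by omega)
  · exact blk_spec _ _ _ p3 n h.1 (by omega)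
  · exact blk_spec _ _ _ p4 n h.1 (by omega)
  · exact blk_spec _ _ _ p5 n h.1 (by omega)
  · exact blk_spec _ _ _ p6 n h.1 (by omega)
  · exact blk_spec _ _ _ p7 n h (by omega)

theorem alln (n : ℕ) (h1 : 1 ≤ n) (h2 : n < 32768) : test sn [1, 5, 17] n = true := by
  rcases (show n < 4097 ∨ (4097 ≤ n ∧ n < 8193) ∨ (8193 ≤ n ∧ n < 12289) ∨ (12289 ≤ n ∧ n < 16385) ∨
    (16385 ≤ n ∧ n < 20481) ∨ (20481 ≤ n ∧ n < 24577) ∨ (24577 ≤ n ∧ n < 28673) ∨ 28673 ≤ n by omega)
    with h | h | h | h | h | h | h | h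
  · exact blk_spec _ _ _ n0 n h1 (by omega)
  · exact blk_spec _ _ _ n1 n h.1 (by omega)
  · exact blk_spec _ _ _ n2 n h.1 (by omega)
  · exact blk_spec _ _ _ n3 n h.1 (by omega)
  · exact blk_spec _ _ _ n4 n h.1 (by omega)
  · exact blk_spec _ _ _ n5 n h.1 (by omega)
  · exact blk_spec _ _ _ n6 n h.1 (by omega)
  · exact blk_spec _ _ _ n7 n h (by omega)

theorem sp_eq (n : ℕ) : T (n : ℤ) = (sp n : ℕ) := by
  unfold T sp
  rcases Nat.mod_two_eq_zero_or_one n with h | h
  · rw [if_pos (by omega)]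
    simp only [h]
    change ((n : ℤ) / 2) = ((n / 2 : ℕ) : ℤ)
    omega
  · rw [if_neg (by omega)]
    simp only [h]
    change ((3 * (n : ℤ) + 1) / 2) = (((3 * n + 1) / 2 : ℕ) : ℤ)
    omega

theorem sn_eq (n : ℕ) : T (-(n : ℤ)) = -((sn n : ℕ) : ℤ) := by
  unfold T sn
  rcases Nat.mod_two_eq_zero_or_one n with h | h
  · rw [if_pos (by omega)]
    simp only [h]
    change (-(n : ℤ) / 2) = -((n / 2 : ℕ) : ℤ)
    omega
  · rw [if_neg (by omega)]
    simp only [h]
    change ((3 * -(n : ℤ) + 1) / 2) = -(((3 * n - 1) / 2 : ℕ) : ℤ)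
    omega

theorem sp_iter (j n : ℕ) : T^[j] (n : ℤ) = (sp^[j] n : ℕ) := by
  induction j generalizing n with
  | zero => rfl
  | succ j ih => rw [Function.iterate_succ_apply, Function.iterate_succ_apply, sp_eq, ih]

theorem sn_iter (j n : ℕ) : T^[j] (-(n : ℤ)) = -((sn^[j] n : ℕ) : ℤ) := by
  induction j generalizing n with
  | zero => rfl
  | succ j ih => rw [Function.iterate_succ_apply, Function.iterate_succ_apply, sn_eq, ih]

/-- the least elements of cycles of absolute value below `2 ^ 15` -/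
theorem least {x : ℤ} (h0 : x ≠ 0) (hx : |x| < 32768) (hmin : ∀ j, |x| ≤ |T^[j] x|) :
    x = 1 ∨ x = -1 ∨ x = -5 ∨ x = -17 := by
  rcases lt_or_gt_of_ne h0 with h | h
  · obtain ⟨n, hn⟩ : ∃ n : ℕ, x = -(n : ℤ) := ⟨x.natAbs, by omega⟩
    rw [abs_of_neg h] at hx
    have h2 := alln n (by omega) (by omega)
    rw [test, Bool.or_eq_true] at h2
    rcases h2 with h2 | h2
    · obtain ⟨j, hj⟩ := below_spec _ _ _ _ h2
      have h3 := hmin (j + 1)
      rw [hn, sn_iter, Function.iterate_succ_apply, abs_neg, abs_neg] at h3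
      simp only [Nat.abs_cast] at h3
      omega
    · simp at h2
      omega
  · obtain ⟨n, hn⟩ : ∃ n : ℕ, x = (n : ℤ) := ⟨x.natAbs, by omega⟩
    rw [abs_of_pos h] at hx
    have h2 := allp n (by omega) (by omega)
    rw [test, Bool.or_eq_true] at h2
    rcases h2 with h2 | h2
    · obtain ⟨j, hj⟩ := below_spec _ _ _ _ h2
      have h3 := hmin (j + 1)
      rw [hn, sp_iter, Function.iterate_succ_apply] at h3
      simp only [Nat.abs_cast] at h3
      omega
    · simp at h2
      omega

end Pool.Agent.W42.Small
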