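import Mathlib
import Pool.Agent.W42.Form
import Pool.Agent.W42.Small
import Pool.Agent.W42.Cpx2

set_option autoImplicit false

/-!
The cycles of the 3x+1 map with at most `5n/2 + 20` parity words of length `n`.
-/

namespace Pool.Agent.W42.Five

open Finset Pool.Agent.H319R2 Pool.Agent.H547R3 Pool.Agent.W42.Cpx

theorem sum_bound (Z : Finset ℤ) (l : ℕ) (hmin : ∀ x ∈ Z, 2 ^ l ≤ |x|)
    (hF : ∀ i : ℕ, 2 * (Z.filter fun x => |x| < 2 ^ i).card ≤ 5 * i + 45) (j : ℕ) :
    ∑ x ∈ Z.filter (fun x => |x| < 2 ^ (l + 1 + j)), 1 / |(x : ℝ)| ≤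
      (5 / 2 * ((l : ℝ) + 1) + 25) / 2 ^ l -
      ((5 / 2 * ((l : ℝ) + 1 + j) + 25) - (Z.filter fun x => |x| < 2 ^ (l + 1 + j)).card) / 2 ^ (l + j) := by
  classical
  induction j with
  | zero =>
    have h1 : ∑ x ∈ Z.filter (fun x => |x| < 2 ^ (l + 1 + 0)), 1 / |(x : ℝ)| ≤
        (Z.filter fun x => |x| < 2 ^ (l + 1 + 0)).card • (1 / (2 : ℝ) ^ l) := by
      apply sum_le_card_nsmul
      intro x hx
      rw [mem_filter] at hx
      apply one_div_le_one_div_of_le (by positivity)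
      exact_mod_cast hmin x hx.1
    rw [nsmul_eq_mul] at h1
    refine h1.trans (le_of_eq ?_)
    simp only [Nat.cast_zero, add_zero]
    ring
  | succ j ih =>
    set A := Z.filter (fun x => |x| < 2 ^ (l + 1 + j)) with hA
    set B := Z.filter (fun x => |x| < 2 ^ (l + 1 + (j + 1))) with hB
    have hAB : A ⊆ B := by
      intro x hx
      rw [hA, mem_filter] at hx
      rw [hB, mem_filter]
      refine ⟨hx.1, hx.2.trans_le ?_⟩
      exact pow_le_pow_right₀ (by norm_num) (by omega)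
    have hsd := sum_sdiff (f := fun x : ℤ => 1 / |(x : ℝ)|) hAB
    rw [← hsd]
    have hnew : ∑ x ∈ B \ A, 1 / |(x : ℝ)| ≤ (B \ A).card • (1 / (2 : ℝ) ^ (l + 1 + j)) := by
      apply sum_le_card_nsmul
      intro x hx
      rw [mem_sdiff, hA, hB, mem_filter, mem_filter] at hx
      apply one_div_le_one_div_of_le (by positivity)
      have : 2 ^ (l + 1 + j) ≤ |x| := by
        by_contra hcon
        push Not at hcon
        exact hx.2 ⟨hx.1.1, hcon⟩
      exact_mod_cast this
    have hcard : ((B \ A).card : ℝ) = B.card - A.card := by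
      rw [card_sdiff_of_subset hAB, Nat.cast_sub (card_le_card hAB)]
    rw [nsmul_eq_mul, hcard] at hnew
    have hFA := hF (l + 1 + j)
    rw [← hA] at hFA
    have hFA' : 2 * (A.card : ℝ) ≤ 5 * ((l : ℝ) + 1 + j) + 45 := by exact_mod_cast hFA
    have e1 : ((2 : ℝ)) ^ (l + (j + 1)) = 2 * 2 ^ (l + j) := by rw [← add_assoc, pow_succ]; ring
    have e2 : ((2 : ℝ)) ^ (l + 1 + j) = 2 * 2 ^ (l + j) := by
      rw [show l + 1 + j = l + j + 1 by ring, pow_succ]; ring
    rw [e2] at hnew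
    rw [e1]
    push_cast
    have hpos : (0 : ℝ) < 2 ^ (l + j) := by positivity
    have key : (((B.card : ℝ) - A.card) * (1 / (2 * 2 ^ (l + j))) -
        ((5 / 2 * ((l : ℝ) + 1 + j) + 25) - A.card) / 2 ^ (l + j)) ≤
        - ((5 / 2 * ((l : ℝ) + 1 + (j + 1)) + 25 - B.card) / (2 * 2 ^ (l + j))) := by
      rw [← sub_nonneg]
      have : -((5 / 2 * ((l : ℝ) + 1 + (j + 1)) + 25 - B.card) / (2 * 2 ^ (l + j))) -
          (((B.card : ℝ) - A.card) * (1 / (2 * 2 ^ (l + j))) -
          ((5 / 2 * ((l : ℝ) + 1 + j) + 25) - A.card) / 2 ^ (l + j)) =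
          (5 / 2 * ((l : ℝ) + 1 + j) + 45 / 2 - A.card) / (2 * 2 ^ (l + j)) := by
        field_simp
        ring
      rw [this]
      apply div_nonneg _ (by positivity)
      linarith
    linarith

theorem half_le (x : ℤ) : |x| ≤ 2 * |T x| := by
  rcases par x with h | h
  · have h1 := T_even h
    have h2 : |2 * T x| = |x| := by rw [h1]
    rw [abs_mul] at h2
    norm_num at h2
    rw [h2]
  · have h1 := T_odd h
    have h2 : |2 * T x| = |3 * x + 1| := by rw [h1]
    rw [abs_mul] at h2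
    norm_num at h2
    rw [h2]
    rcases le_or_gt 0 x with h3 | h3
    · rw [abs_of_nonneg h3, abs_of_nonneg (by linarith)]; linarith
    · rw [abs_of_neg h3, abs_of_neg (by omega)]; omega

theorem half_iter (k : ℕ) (x : ℤ) : |x| ≤ 2 ^ k * |T^[k] x| := by
  induction k generalizing x with
  | zero => simp
  | succ k ih =>
    rw [Function.iterate_succ_apply, pow_succ]
    have h1 := ih (T x)
    have h2 := half_le x
    linarith

/-- the number of elements is bounded in terms of the size of the least element -/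
theorem card_bound {Z : Finset ℤ} (hZ : IsCycle Z) (hw : ∀ n : ℕ, 2 * (words Z n).card ≤ 5 * n + 40)
    {x0 : ℤ} (hx0 : x0 ∈ Z) (hx00 : x0 ≠ 0) {l : ℕ} (hl2 : |x0| < 2 ^ (l + 1)) :
    2 * Z.card ≤ 65 * (l + 1) + 590 := by
  classical
  have hF : ∀ i : ℕ, 2 * (Z.filter fun x => |x| < 2 ^ i).card ≤ 5 * i + 45 := by
    intro i
    have h1 := words_card Z i
    have h2 := hw (i + 1)
    omega
  -- the largest element
  obtain ⟨y, hyZ, hymax⟩ := exists_max_image Z (fun x => |x|) ⟨x0, hx0⟩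
  have hy1 : 1 ≤ |x0| := Int.one_le_abs hx00
  have hyx := hymax x0 hx0
  set n := Nat.log 2 y.natAbs with hn
  have hyna : y.natAbs ≠ 0 := by
    have : 1 ≤ |y| := hy1.trans hyx
    rw [Int.natAbs_ne_zero]
    rintro rfl
    simp at this
  have hn1 : 2 ^ n ≤ |y| := by
    have := Nat.pow_log_le_self 2 hyna
    rw [← hn] at this
    have h2 : ((2 ^ n : ℕ) : ℤ) ≤ (y.natAbs : ℤ) := by exact_mod_cast this
    rw [← Int.abs_eq_natAbs] at h2
    push_cast at h2
    exact h2
  have hn2 : |y| < 2 ^ (n + 1) := by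
    have := Nat.lt_pow_succ_log_self (b := 2) (by norm_num) y.natAbs
    have h2 : (y.natAbs : ℤ) < ((2 ^ (n + 1) : ℕ) : ℤ) := by exact_mod_cast this
    rw [← Int.abs_eq_natAbs] at h2
    push_cast at h2
    exact h2
  have hall : Z.filter (fun x => |x| < 2 ^ (n + 1)) = Z := by
    apply filter_true_of_mem
    intro x hx
    exact (hymax x hx).trans_lt hn2
  have hp2 := hF (n + 1)
  rw [hall] at hp2
  rcases lt_or_ge n (l + 1) with hnl | hnl
  · omega
  -- crossing times
  obtain ⟨hmp, hZset⟩ := eq_orbit hZ hx0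
  rw [hmp] at hZset
  have hinj : Set.InjOn (fun i => T^[i] x0) (Set.Iio Z.card) := by
    rw [← hmp]; exact Function.iterate_injOn_Iio_minimalPeriod
  have hper : T^[Z.card] x0 = x0 := by rw [← hmp]; exact Function.iterate_minimalPeriod
  set p := Z.card with hpdef
  set S := (range p).filter fun i => 2 ^ n ≤ |T^[i] x0| with hS
  have hSne : S.Nonempty := by
    rw [hZset, mem_image] at hyZ
    obtain ⟨i, hi, hiy⟩ := hyZ
    refine ⟨i, mem_filter.2 ⟨hi, ?_⟩⟩
    rw [hiy]; exact hn1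
  set s := S.min' hSne with hs
  set t := S.max' hSne with ht
  have hsS : s ∈ S := min'_mem _ _
  have htS : t ∈ S := max'_mem _ _
  have hst : s ≤ t := min'_le _ _ htS
  rw [hS, mem_filter, mem_range] at hsS htS
  set k := p - t with hk
  have hkt : k + t = p := by omega
  -- upward
  have hup : (41 : ℕ) * (n - (l + 1)) < 24 * s := by
    have h1 := growth s x0
    have h2 : ((3 : ℝ) / 2) ^ (od s x0) ≤ (3 / 2) ^ s :=
      pow_le_pow_right₀ (by norm_num) (od_le s x0)
    have h3 : |(x0 : ℝ)| + 1 ≤ 2 ^ (l + 1) := by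
      have : |x0| + 1 ≤ 2 ^ (l + 1) := by omega
      exact_mod_cast this
    have h4 : (2 : ℝ) ^ n ≤ |((T^[s] x0 : ℤ) : ℝ)| := by exact_mod_cast hsS.2
    have h5 : (2 : ℝ) ^ n < (3 / 2) ^ s * 2 ^ (l + 1) := by
      have : ((3 : ℝ) / 2) ^ (od s x0) * (|(x0 : ℝ)| + 1) ≤ (3 / 2) ^ s * 2 ^ (l + 1) :=
        mul_le_mul h2 h3 (by positivity) (by positivity)
      linarith
    obtain ⟨d, hd⟩ : ∃ d, n = l + 1 + d := ⟨n - (l + 1), by omega⟩
    have hd' : n - (l + 1) = d := by omega
    rw [hd']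
    rw [hd, pow_add, mul_comm ((2 : ℝ) ^ (l + 1))] at h5
    have h6 : (2 : ℝ) ^ d < (3 / 2) ^ s := lt_of_mul_lt_mul_right h5 (by positivity)
    by_contra hcon
    push Not at hcon
    have h7 : ((2 : ℝ) ^ d) ^ 41 < ((3 / 2) ^ s) ^ 41 := pow_lt_pow_left₀ h6 (by positivity) (by norm_num)
    have h8 : (((3 : ℝ) / 2) ^ s) ^ 41 ≤ (2 ^ 24) ^ s := by
      rw [← pow_mul, mul_comm s 41, pow_mul]
      apply pow_le_pow_left₀ (by positivity)
      norm_num
    have h9 : (((2 : ℝ)) ^ 24) ^ s ≤ (2 ^ d) ^ 41 := by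
      rw [← pow_mul, ← pow_mul]
      apply pow_le_pow_right₀ (by norm_num)
      omega
    exact absurd (h7.trans_le (h8.trans h9)) (lt_irrefl _)
  -- downward
  have hdown : n < k + (l + 1) := by
    have h1 := half_iter k (T^[t] x0)
    rw [← Function.iterate_add_apply, hkt, hper] at h1
    have h2 : (2 : ℤ) ^ n < 2 ^ k * 2 ^ (l + 1) := by
      refine (htS.2.trans h1).trans_lt ?_
      exact mul_lt_mul_of_pos_left hl2 (by positivity)
    rw [← pow_add] at h2
    exact (pow_lt_pow_iff_right₀ (by norm_num)).1 h2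
  -- count
  have hcount : s + k ≤ (Z.filter fun x => |x| < 2 ^ n).card + 1 := by
    have h1 : ((range s) ∪ (Ico (t + 1) p)).image (fun i => T^[i] x0) ⊆
        Z.filter fun x => |x| < 2 ^ n := by
      intro w hw
      rw [mem_image] at hw
      obtain ⟨i, hi, rfl⟩ := hw
      rw [mem_filter]
      refine ⟨hZ.closed hx0 i, ?_⟩
      by_contra hcon
      push Not at hcon
      rw [mem_union, mem_range, mem_Ico] at hi
      have hiS : i ∈ S := by
        rw [hS, mem_filter, mem_range]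
        refine ⟨?_, hcon⟩
        rcases hi with hi | hi
        · omega
        · exact hi.2
      rcases hi with hi | hi
      · have := min'_le S i hiS
        omega
      · have := le_max' S i hiS
        omega
    have h2 := card_le_card h1
    rw [card_image_of_injOn, card_union_of_disjoint, card_range, Nat.card_Ico] at h2
    · omega
    · rw [disjoint_left]
      intro i hi hi'
      rw [mem_range] at hi
      rw [mem_Ico] at hi'
      omega
    · intro i hi j hj h
      rw [mem_coe, mem_union, mem_range, mem_Ico] at hi hj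
      exact hinj (by rw [Set.mem_Iio]; omega) (by rw [Set.mem_Iio]; omega) h
  have hFn := hF n
  omega

/-- no cycle of low complexity has a least element of absolute value at least `2 ^ 15` -/
theorem large_false {Z : Finset ℤ} (hZ : IsCycle Z) (hw : ∀ n : ℕ, 2 * (words Z n).card ≤ 5 * n + 40)
    {x0 : ℤ} (hx0 : x0 ∈ Z) (hmin : ∀ x ∈ Z, |x0| ≤ |x|) (hbig : 32768 ≤ |x0|) : False := by
  classical
  have hx00 : x0 ≠ 0 := by rintro rfl; simp at hbig
  have hF : ∀ i : ℕ, 2 * (Z.filter fun x => |x| < 2 ^ i).card ≤ 5 * i + 45 := by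
    intro i
    have h1 := words_card Z i
    have h2 := hw (i + 1)
    omega
  set l := Nat.log 2 x0.natAbs with hl
  have hna : x0.natAbs ≠ 0 := Int.natAbs_ne_zero.2 hx00
  have hbig' : 32768 ≤ x0.natAbs := by
    rw [Int.abs_eq_natAbs] at hbig
    exact_mod_cast hbig
  have hl1 : 2 ^ l ≤ |x0| := by
    have := Nat.pow_log_le_self 2 hna
    rw [← hl] at this
    have h2 : ((2 ^ l : ℕ) : ℤ) ≤ (x0.natAbs : ℤ) := by exact_mod_cast this
    rw [← Int.abs_eq_natAbs] at h2
    push_cast at h2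
    exact h2
  have hl2 : |x0| < 2 ^ (l + 1) := by
    have := Nat.lt_pow_succ_log_self (b := 2) (by norm_num) x0.natAbs
    have h2 : (x0.natAbs : ℤ) < ((2 ^ (l + 1) : ℕ) : ℤ) := by exact_mod_cast this
    rw [← Int.abs_eq_natAbs] at h2
    push_cast at h2
    exact h2
  have hl15 : 15 ≤ l := by
    rw [hl]
    apply (Nat.le_log_iff_pow_le (by norm_num) hna).2
    exact hbig'
  have hp := card_bound hZ hw hx0 hx00 hl2
  have hppos : 0 < Z.card := hZ.card_pos
  -- the linear form
  have h0 : (0 : ℤ) ∉ Z := by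
    intro h
    have := hmin 0 h
    simp at this
    exact hx00 this
  have hform := hZ.form_le h0
  obtain ⟨y, hyZ, hymax⟩ := exists_max_image Z (fun x => |x|) ⟨x0, hx0⟩
  obtain ⟨j, hj⟩ : ∃ j : ℕ, |y| < 2 ^ (l + 1 + j) := by
    refine ⟨y.natAbs, ?_⟩
    have h1 : y.natAbs < 2 ^ y.natAbs := Nat.lt_two_pow_self
    have h2 : (2 : ℕ) ^ y.natAbs ≤ 2 ^ (l + 1 + y.natAbs) := Nat.pow_le_pow_right (by norm_num) (by omega)
    have h3 : (y.natAbs : ℤ) < ((2 ^ (l + 1 + y.natAbs) : ℕ) : ℤ) := by exact_mod_cast h1.trans_le h2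
    rw [← Int.abs_eq_natAbs] at h3
    push_cast at h3
    exact h3
  have hall : Z.filter (fun x => |x| < 2 ^ (l + 1 + j)) = Z := by
    apply filter_true_of_mem
    intro x hx
    exact (hymax x hx).trans_lt hj
  have hsum := sum_bound Z l (fun x hx => hl1.trans (hmin x hx)) hF j
  rw [hall] at hsum
  have hFj := hF (l + 1 + j)
  rw [hall] at hFj
  have hFj' : 2 * (Z.card : ℝ) ≤ 5 * ((l : ℝ) + 1 + j) + 45 := by exact_mod_cast hFj
  have hsum2 : ∑ x ∈ Z, 1 / |(x : ℝ)| ≤ (5 / 2 * ((l : ℝ) + 1) + 25) / 2 ^ l := by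
    have : 0 ≤ ((5 / 2 * ((l : ℝ) + 1 + j) + 25) - Z.card) / 2 ^ (l + j) := by
      apply div_nonneg _ (by positivity)
      linarith
    linarith
  set Λ := |(Z.card : ℝ) * Real.log 2 - odds Z * Real.log 3| with hΛ
  have hΛ1 : Λ ≤ (5 / 2 * ((l : ℝ) + 1) + 25) / 2 ^ (l + 1) := by
    refine hform.trans ?_
    rw [pow_succ]
    have : (5 / 2 * ((l : ℝ) + 1) + 25) / (2 ^ l * 2) = 1 / 2 * ((5 / 2 * ((l : ℝ) + 1) + 25) / 2 ^ l) := by
      field_simp
    rw [this]
    linarith
  set L := l + 1 with hL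
  have hLr : ((l : ℝ) + 1) = (L : ℝ) := by rw [hL]; push_cast; ring
  rw [hLr] at hΛ1
  have hL16 : 16 ≤ L := by omega
  have hΛ2 : Λ * 2 ^ L ≤ 5 / 2 * (L : ℝ) + 25 := by
    rwa [le_div_iff₀ (by positivity)] at hΛ1
  clear_value L
  rcases lt_or_ge L 24 with hA | hA
  · -- small
    have h1 := Pool.Agent.W42.Form.cf1 (Z.card : ℤ) (odds Z : ℤ) (by exact_mod_cast hppos) (by
      have : Z.card < 1054 := by omega
      exact_mod_cast this)
    push_cast at h1
    rw [← hΛ] at h1
    interval_cases L <;> norm_num at hΛ2 <;> linarith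
  rcases lt_or_ge L 1200 with hB | hB
  · have h1 := Pool.Agent.W42.Form.cf2 (Z.card : ℤ) (odds Z : ℤ) (by exact_mod_cast hppos) (by
      have : Z.card < 50508 := by omega
      exact_mod_cast this)
    push_cast at h1
    rw [← hΛ] at h1
    obtain ⟨i, hi⟩ : ∃ i, L = 24 + i := ⟨L - 24, by omega⟩
    have h2 : (1 : ℝ) + i ≤ 2 ^ i := by
      have : i + 1 ≤ 2 ^ i := Nat.lt_two_pow_self
      have : ((i + 1 : ℕ) : ℝ) ≤ ((2 ^ i : ℕ) : ℝ) := by exact_mod_cast this
      push_cast at this; linarith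
    rw [hi, pow_add] at hΛ2
    push_cast at hΛ2
    have hi0 : (0 : ℝ) ≤ i := Nat.cast_nonneg _
    have h3 : (0.000018 : ℝ) * (2 ^ 24 * (1 + i)) ≤ Λ * (2 ^ 24 * 2 ^ i) := by
      apply mul_le_mul h1 _ (by positivity) (by linarith)
      exact mul_le_mul_of_nonneg_left h2 (by positivity)
    norm_num at h3 hΛ2
    linarith
  · -- large
    obtain ⟨r, hr1, hr2⟩ : ∃ r : ℕ, 40 * r ≤ L ∧ L ≤ 40 * r + 39 := ⟨L / 40, by omega, by omega⟩
    have hr30 : 30 ≤ r := by omega
    obtain ⟨i, hi⟩ : ∃ i, r = 30 + i := ⟨r - 30, by omega⟩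
    have hi0 : (0 : ℝ) ≤ i := Nat.cast_nonneg _
    have h2 : (1 : ℝ) + i ≤ 2 ^ i := by
      have : i + 1 ≤ 2 ^ i := Nat.lt_two_pow_self
      have : ((i + 1 : ℕ) : ℝ) ≤ ((2 ^ i : ℕ) : ℝ) := by exact_mod_cast this
      push_cast at this; linarith
    have hΛ0 : 0 ≤ Λ := abs_nonneg _
    have hLr2 : (L : ℝ) ≤ 40 * r + 39 := by exact_mod_cast hr2
    -- Λ 2^(39 r) 2^r ≤ 100 r + 125
    have h3 : Λ * (2 ^ (39 * r) * 2 ^ r) ≤ 100 * r + 125 := by
      have : (2 : ℝ) ^ (39 * r) * 2 ^ r ≤ 2 ^ L := by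
        rw [← pow_add]
        exact pow_le_pow_right₀ (by norm_num) (by omega)
      have h4 := mul_le_mul_of_nonneg_left this hΛ0
      linarith
    have hr' : (r : ℝ) = 30 + i := by rw [hi]; push_cast; ring
    have h2r : (2 : ℝ) ^ 30 * (1 + i) ≤ 2 ^ r := by
      rw [hi, pow_add]
      exact mul_le_mul_of_nonneg_left h2 (by positivity)
    have h39 : (1 : ℝ) ≤ 2 ^ (39 * r) := one_le_pow₀ (by norm_num)
    have hΛs : Λ < 0.01 := by
      have h5 : Λ * (2 ^ 30 * (1 + i)) ≤ Λ * (2 ^ (39 * r) * 2 ^ r) := by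
        apply mul_le_mul_of_nonneg_left _ hΛ0
        have : (0 : ℝ) < 2 ^ r := by positivity
        nlinarith
      rw [hr'] at h3
      norm_num at h5
      by_contra hcon
      push Not at hcon
      nlinarith
    set P : ℤ := (Z.card : ℤ) with hP
    set O : ℤ := (odds Z : ℤ) with hO
    have hΛe : Λ = |(P : ℝ) * Real.log 2 - O * Real.log 3| := by rw [hΛ, hP, hO]; push_cast; rfl
    have hP1 : (1 : ℝ) ≤ P := by
      have : (1 : ℤ) ≤ P := by rw [hP]; exact_mod_cast hppos
      exact_mod_cast this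
    have l2 : (0.6931 : ℝ) < Real.log 2 := by have := Real.log_two_gt_d9; linarith
    have l2' : Real.log 2 < (0.6932 : ℝ) := by have := Real.log_two_lt_d9; linarith
    -- bounds on log 3
    have l3 : (1.098 : ℝ) < Real.log 3 := by
      have h := Form.log_pos_ratio (a := 84) (b := 53) (by norm_num)
      push_cast at h
      linarith
    have l3' : Real.log 3 < (1.11 : ℝ) := by
      have h := Form.log_ratio (a := 8) (b := 5) (ε := 0) (by norm_num)
      push_cast at h
      linarith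
    rw [hΛe] at hΛs
    obtain ⟨hs1, hs2⟩ := abs_lt.1 hΛs
    have hp2o : P < 2 * O := by
      by_contra hcon
      push Not at hcon
      have : (2 : ℝ) * O ≤ P := by exact_mod_cast hcon
      nlinarith
    have h3o : 3 * O < 2 * P := by
      by_contra hcon
      push Not at hcon
      have : (2 : ℝ) * P ≤ 3 * O := by exact_mod_cast hcon
      nlinarith
    have hH : 49 * ((P : ℝ) - O) ≤ (204800 / 117649) ^ r := by
      have hO0 : (0 : ℝ) ≤ O := by rw [hO]; positivity
      have hP2 : 2 * (P : ℝ) ≤ 65 * L + 590 := by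
        have : 2 * P ≤ 65 * (L : ℤ) + 590 := by rw [hP]; exact_mod_cast hp
        exact_mod_cast this
      have hb : (1 : ℝ) + 0.74 * i ≤ (204800 / 117649) ^ i := by
        have h := one_add_mul_le_pow (a := (0.74 : ℝ)) (by norm_num) i
        refine le_trans (le_of_eq (by ring)) (h.trans ?_)
        apply pow_le_pow_left₀ (by norm_num)
        norm_num
      have hb2 : (16000000 : ℝ) ≤ (204800 / 117649) ^ 30 := by norm_num
      have h6 : (16000000 : ℝ) * (1 + 0.74 * i) ≤ (204800 / 117649) ^ r := by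
        rw [hi, pow_add]
        exact mul_le_mul hb2 hb (by positivity) (by positivity)
      rw [hr'] at hLr2
      linarith
    have hlow := Form.lower r P O hp2o h3o hH
    rw [← hΛe] at hlow
    -- contradiction
    have h7 : (1 : ℝ) * (2 ^ 30 * (1 + i)) ≤ 2 ^ 13 * (100 * r + 125) := by
      calc (1 : ℝ) * (2 ^ 30 * (1 + i)) ≤ (2 ^ 13 * 2 ^ (39 * r) * Λ) * 2 ^ r :=
            mul_le_mul hlow h2r (by positivity) (by positivity)
        _ = 2 ^ 13 * (Λ * (2 ^ (39 * r) * 2 ^ r)) := by ring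
        _ ≤ 2 ^ 13 * (100 * r + 125) := by gcongr
    rw [hr'] at h7
    norm_num at h7
    linarith

theorem isCycle_of (x : ℤ) (p : ℕ) (hp : 1 ≤ p) (h : T^[p] x = x) :
    IsCycle ((range p).image fun i => T^[i] x) := ⟨x, p, hp, h, rfl⟩

/-- **Classification.** -/
theorem main (Z : Finset ℤ) : (IsCycle Z ∧ ∀ n : ℕ, 2 * (words Z n).card ≤ 5 * n + 40) ↔
    Z = {0} ∨ Z = {-1} ∨ Z = {1, 2} ∨ Z = {-5, -7, -10} ∨
      Z = {-17, -25, -37, -55, -82, -41, -61, -91, -136, -68, -34} := by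
  classical
  have c0 : IsCycle ({0} : Finset ℤ) := ⟨0, 1, by norm_num, by decide, by decide⟩
  have c1 : IsCycle ({-1} : Finset ℤ) := ⟨-1, 1, by norm_num, by decide, by decide⟩
  have c2 : IsCycle ({1, 2} : Finset ℤ) := ⟨1, 2, by norm_num, by decide, by decide⟩
  have c3 : IsCycle ({-5, -7, -10} : Finset ℤ) := ⟨-5, 3, by norm_num, by decide, by decide⟩
  have c4 : IsCycle ({-17, -25, -37, -55, -82, -41, -61, -91, -136, -68, -34} : Finset ℤ) :=
    ⟨-17, 11, by norm_num, by decide, by decide⟩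
  constructor
  · rintro ⟨hZ, hw⟩
    obtain ⟨x0, hx0, hmin⟩ := exists_min_image Z (fun x => |x|) (card_pos.1 hZ.card_pos)
    by_cases h0 : x0 = 0
    · left
      rw [h0] at hx0
      exact hZ.eq_of_mem c0 hx0 (by simp)
    right
    have hsmall : |x0| < 32768 := by
      by_contra hcon
      push Not at hcon
      exact large_false hZ hw hx0 hmin hcon
    rcases Small.least h0 hsmall (fun j => hmin _ (hZ.closed hx0 j)) with h | h | h | h
    · right; left
      rw [h] at hx0
      exact hZ.eq_of_mem c2 hx0 (by simp)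
    · left
      rw [h] at hx0
      exact hZ.eq_of_mem c1 hx0 (by simp)
    · right; right; left
      rw [h] at hx0
      exact hZ.eq_of_mem c3 hx0 (by simp)
    · right; right; right
      rw [h] at hx0
      exact hZ.eq_of_mem c4 hx0 (by simp)
  · have hc : ∀ Z : Finset ℤ, IsCycle Z → Z.card ≤ 20 →
        (IsCycle Z ∧ ∀ n : ℕ, 2 * (words Z n).card ≤ 5 * n + 40) := by
      intro Z hZ hcard
      refine ⟨hZ, fun n => ?_⟩
      have : (words Z n).card ≤ Z.card := card_image_le
      omega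
    rintro (h | h | h | h | h)
    · rw [h]; exact hc _ c0 (by decide)
    · rw [h]; exact hc _ c1 (by decide)
    · rw [h]; exact hc _ c2 (by decide)
    · rw [h]; exact hc _ c3 (by decide)
    · rw [h]; exact hc _ c4 (by decide)

end Pool.Agent.W42.Five
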