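import Mathlib
import Pool.Agent.W42.Five

set_option autoImplicit false

/-!
Integers whose parity sequence has low subword complexity.
-/

namespace Pool.Agent.W42.Seq

open Finset Pool.Agent.H319R2 Pool.Agent.H547R3 Pool.Agent.W42.Cpx

/-- the set of factors of length `n` of the parity sequence of `x` -/
def factors (x : ℤ) (n : ℕ) : Set (Fin n → ℤ) :=
  {w | ∃ i : ℕ, ∀ j : Fin n, w j = T^[i + (j : ℕ)] x % 2}

theorem factors_finite (x : ℤ) (n : ℕ) : (factors x n).Finite := by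
  apply Set.Finite.subset (Set.Finite.pi' (fun _ : Fin n => (Set.finite_Icc (0 : ℤ) 1)))
  rintro w ⟨i, hi⟩ j
  rw [hi j]
  have := Int.emod_two_eq_zero_or_one (T^[i + (j : ℕ)] x)
  rw [Set.mem_Icc]
  omega

/-- an injective orbit passes every level -/
theorem exists_large {x : ℤ} (hinj : Function.Injective fun i => T^[i] x) (m : ℕ) :
    ∃ i, 2 ^ m ≤ |T^[i] x| := by
  by_contra hcon
  push Not at hcon
  have h1 : Set.range (fun i => T^[i] x) ⊆ (Finset.Icc (-(2 : ℤ) ^ m) (2 ^ m) : Finset ℤ) := by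
    rintro _ ⟨i, rfl⟩
    rw [mem_coe, Finset.mem_Icc, ← abs_le]
    exact (hcon i).le
  exact Set.infinite_range_of_injective hinj ((Finset.finite_toSet _).subset h1)

theorem first_passage {x : ℤ} (hinj : Function.Injective fun i => T^[i] x) (m : ℕ) :
    ∃ s : ℕ, 2 ^ m ≤ |T^[s] x| ∧ s ≤ (factors x (m + 1)).ncard := by
  classical
  have hex := exists_large hinj m
  refine ⟨Nat.find hex, Nat.find_spec hex, ?_⟩
  set s := Nat.find hex with hs
  have hlt : ∀ i < s, |T^[i] x| < 2 ^ m := fun i hi => not_le.1 (Nat.find_min hex hi)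
  have h1 : ((range s).image fun i => fun j : Fin (m + 1) => T^[i + (j : ℕ)] x % 2).card = s := by
    rw [card_image_of_injOn, card_range]
    intro i hi i' hi' h
    rw [mem_coe, mem_range] at hi hi'
    apply hinj
    apply words_inj (hlt i hi) (hlt i' hi')
    funext j
    have := congrFun h j
    simp only at this
    rw [← Function.iterate_add_apply, ← Function.iterate_add_apply, Nat.add_comm _ i, Nat.add_comm _ i']
    exact this
  rw [← h1, ← Set.ncard_coe_finset]
  apply Set.ncard_le_ncard _ (factors_finite x (m + 1))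
  intro w hw
  rw [mem_coe, mem_image] at hw
  obtain ⟨i, _, rfl⟩ := hw
  exact ⟨i, fun j => rfl⟩

/-- the parity sequence of an injective orbit has complexity at least `c n` for all large `n`,
`c < log 2 / log (3/2)` -/
theorem lower_inj {x : ℤ} (hinj : Function.Injective fun i => T^[i] x) (m : ℕ) :
    (m : ℝ) * Real.log 2 ≤ (factors x (m + 1)).ncard * Real.log (3 / 2) + Real.log (|(x : ℝ)| + 1) := by
  obtain ⟨s, hs1, hs2⟩ := first_passage hinj m
  have h1 := growth s x
  have h2 : ((3 : ℝ) / 2) ^ (od s x) ≤ (3 / 2) ^ s :=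
    pow_le_pow_right₀ (by norm_num) (od_le s x)
  have hx : (0 : ℝ) < |(x : ℝ)| + 1 := by positivity
  have h3 : (2 : ℝ) ^ m ≤ (3 / 2) ^ s * (|(x : ℝ)| + 1) := by
    have h4 : (2 : ℝ) ^ m ≤ |((T^[s] x : ℤ) : ℝ)| := by exact_mod_cast hs1
    have h5 : ((3 : ℝ) / 2) ^ (od s x) * (|(x : ℝ)| + 1) ≤ (3 / 2) ^ s * (|(x : ℝ)| + 1) :=
      mul_le_mul_of_nonneg_right h2 hx.le
    linarith
  have h4 := Real.log_le_log (by positivity) h3
  rw [Real.log_pow, Real.log_mul (by positivity) hx.ne', Real.log_pow] at h4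
  have h5 : (s : ℝ) * Real.log (3 / 2) ≤ (factors x (m + 1)).ncard * Real.log (3 / 2) :=
    mul_le_mul_of_nonneg_right (by exact_mod_cast hs2) (Real.log_nonneg (by norm_num))
  linarith

/-- **Main theorem.** -/
theorem main (c : ℝ) (hc : c < Real.log 2 / Real.log (3 / 2)) (x : ℤ)
    (h1 : ∀ n : ℕ, 2 * (factors x n).ncard ≤ 5 * n + 40)
    (h2 : ∀ n0 : ℕ, ∃ n : ℕ, n0 ≤ n ∧ ((factors x n).ncard : ℝ) ≤ c * n) :
    ∃ k : ℕ, T^[k] x = 0 ∨ T^[k] x = -1 ∨ T^[k] x = 1 ∨ T^[k] x = -5 ∨ T^[k] x = -17 := by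
  classical
  have hl2 : 0 < Real.log 2 := Real.log_pos (by norm_num)
  have hl32 : 0 < Real.log (3 / 2) := Real.log_pos (by norm_num)
  by_cases hinj : Function.Injective fun i => T^[i] x
  · exfalso
    -- choose n large
    set δ : ℝ := Real.log 2 - c * Real.log (3 / 2) with hδ
    have hδ0 : 0 < δ := by
      rw [lt_div_iff₀ hl32] at hc
      rw [hδ]; linarith
    obtain ⟨n0, hn0⟩ := exists_nat_gt ((Real.log 2 + Real.log (|(x : ℝ)| + 1)) / δ)
    obtain ⟨n, hn, hcn⟩ := h2 (n0 + 1)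
    obtain ⟨m, rfl⟩ : ∃ m, n = m + 1 := ⟨n - 1, by omega⟩
    have h3 := lower_inj hinj m
    have h4 : (factors x (m + 1)).ncard * Real.log (3 / 2) ≤ c * ((m + 1 : ℕ) : ℝ) * Real.log (3 / 2) :=
      mul_le_mul_of_nonneg_right hcn hl32.le
    have h5 : (n0 : ℝ) + 1 ≤ ((m + 1 : ℕ) : ℝ) := by exact_mod_cast hn
    rw [div_lt_iff₀ hδ0] at hn0
    have h6 : ((m + 1 : ℕ) : ℝ) * δ ≤ Real.log 2 + Real.log (|(x : ℝ)| + 1) := by
      rw [hδ]
      push_cast at h4 ⊢
      nlinarith
    nlinarith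
  · -- eventually periodic
    rw [Function.Injective] at hinj
    push Not at hinj
    obtain ⟨i', j', he', hne⟩ := hinj
    obtain ⟨i, j, hij, he⟩ : ∃ i j : ℕ, i < j ∧ T^[i] x = T^[j] x := by
      rcases lt_or_gt_of_ne hne with h | h
      · exact ⟨i', j', h, he'⟩
      · exact ⟨j', i', h, he'.symm⟩
    set y := T^[i] x with hy
    set p := j - i with hp
    have hper : T^[p] y = y := by
      rw [hy, ← Function.iterate_add_apply, show p + i = j by omega, ← he]
    set Z := (range p).image fun i => T^[i] y with hZd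
    have hZ : IsCycle Z := ⟨y, p, by omega, hper, rfl⟩
    have hyZ : y ∈ Z := mem_image.2 ⟨0, mem_range.2 (by omega), rfl⟩
    have hw : ∀ n : ℕ, 2 * (words Z n).card ≤ 5 * n + 40 := by
      intro n
      refine le_trans (Nat.mul_le_mul_left 2 ?_) (h1 n)
      rw [← Set.ncard_coe_finset]
      apply Set.ncard_le_ncard _ (factors_finite x n)
      intro w hw
      rw [mem_coe, words, mem_image] at hw
      obtain ⟨z, hz, rfl⟩ := hw
      rw [hZd, mem_image] at hz
      obtain ⟨l, _, rfl⟩ := hz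
      refine ⟨l + i, fun j => ?_⟩
      show T^[(j : ℕ)] (T^[l] y) % 2 = _
      rw [hy, ← Function.iterate_add_apply, ← Function.iterate_add_apply]
      congr 2
      ring
    have hmem : ∀ z ∈ Z, ∃ k, T^[k] x = z := by
      intro z hz
      rw [hZd, mem_image] at hz
      obtain ⟨l, _, rfl⟩ := hz
      exact ⟨l + i, by rw [Function.iterate_add_apply]⟩
    rcases (Five.main Z).1 ⟨hZ, hw⟩ with h | h | h | h | h
    · obtain ⟨k, hk⟩ := hmem 0 (by rw [h]; simp)
      exact ⟨k, Or.inl hk⟩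
    · obtain ⟨k, hk⟩ := hmem (-1) (by rw [h]; simp)
      exact ⟨k, Or.inr (Or.inl hk)⟩
    · obtain ⟨k, hk⟩ := hmem 1 (by rw [h]; simp)
      exact ⟨k, Or.inr (Or.inr (Or.inl hk))⟩
    · obtain ⟨k, hk⟩ := hmem (-5) (by rw [h]; simp)
      exact ⟨k, Or.inr (Or.inr (Or.inr (Or.inl hk)))⟩
    · obtain ⟨k, hk⟩ := hmem (-17) (by rw [h]; simp)
      exact ⟨k, Or.inr (Or.inr (Or.inr (Or.inr hk)))⟩

end Pool.Agent.W42.Seq
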