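import Mathlib
import Pool.Agent.W42.Seq

set_option autoImplicit false

/-!
From the 3x+1 map to the Syracuse map.
-/

namespace Pool.Agent.W42.Syr

open Finset Pool.Agent.H319R2 Pool.Agent.H547R3 Pool.Agent.W42.Cpx Pool.Agent.W42.Seq

/-- The Syracuse map. -/
def Syr (N : ℤ) : ℤ := (3 * N + 1) / 2 ^ padicValInt 2 (3 * N + 1)

lemma syr_eq {N M : ℤ} {v : ℕ} (h : 3 * N + 1 = 2 ^ v * M) (hM : M % 2 = 1) : Syr N = M := by
  have hM0 : M ≠ 0 := by rintro rfl; norm_num at hM
  have h1 : padicValInt 2 (3 * N + 1) = v := by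
    rw [h, padicValInt.mul (by positivity) hM0]
    have h2 : padicValInt 2 M = 0 := padicValInt.eq_zero_of_not_dvd (by
      intro h3
      have : (2 : ℤ) ∣ M := by exact_mod_cast h3
      omega)
    have h3 : padicValInt 2 ((2 : ℤ) ^ v) = v := by
      have e : ((2 : ℤ) ^ v) = ((2 ^ v : ℕ) : ℤ) := by push_cast; ring
      rw [e, padicValInt.of_nat, padicValNat.prime_pow]
    rw [h2, h3, add_zero]
  unfold Syr
  rw [h1, h, Int.mul_ediv_cancel_left _ (by positivity)]

lemma exists_odd_part : ∀ (n : ℕ) (a : ℤ), a.natAbs ≤ n → a ≠ 0 → ∃ (v : ℕ) (M : ℤ), a = 2 ^ v * M ∧ M % 2 = 1 := by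
  intro n
  induction n with
  | zero => intro a ha h0; omega
  | succ n ih =>
    intro a ha h0
    rcases Int.emod_two_eq_zero_or_one a with h | h
    · obtain ⟨v, M, h1, h2⟩ := ih (a / 2) (by omega) (by omega)
      refine ⟨v + 1, M, ?_, h2⟩
      rw [pow_succ]
      have : a = 2 * (a / 2) := by omega
      rw [this, h1]; ring
    · exact ⟨0, a, by simp, h⟩

lemma T_pow_two (M : ℤ) : ∀ (i v : ℕ), i ≤ v → T^[i] (2 ^ v * M) = 2 ^ (v - i) * M := by
  intro i
  induction i with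
  | zero => intro v _; simp
  | succ i ih =>
    intro v hv
    obtain ⟨w, rfl⟩ : ∃ w, v = w + 1 := ⟨v - 1, by omega⟩
    rw [Function.iterate_succ_apply]
    have h1 : T (2 ^ (w + 1) * M) = 2 ^ w * M := by
      have h2 : (2 : ℤ) ^ (w + 1) * M = 2 * (2 ^ w * M) := by rw [pow_succ]; ring
      unfold T
      rw [h2]
      rw [if_pos (by omega)]
      omega
    rw [h1, ih w (by omega)]
    congr 2
    omega

/-- every odd element of the `T`-orbit of an odd integer lies on its Syracuse orbit -/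
theorem odd_reach : ∀ (j : ℕ) (N : ℤ), N % 2 = 1 → T^[j] N % 2 = 1 → ∃ k, Syr^[k] N = T^[j] N := by
  intro j
  induction j using Nat.strong_induction_on with
  | _ j ih =>
    intro N hN hj
    rcases Nat.eq_zero_or_pos j with rfl | hj0
    · exact ⟨0, rfl⟩
    obtain ⟨v, M, h1, h2⟩ := exists_odd_part _ (3 * N + 1) le_rfl (by omega)
    have hv : 1 ≤ v := by
      by_contra hv
      have : v = 0 := by omega
      rw [this] at h1
      omega
    obtain ⟨w, rfl⟩ : ∃ w, v = w + 1 := ⟨v - 1, by omega⟩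
    have h3 : T N = 2 ^ w * M := by
      have h4 : (2 : ℤ) ^ (w + 1) * M = 2 * (2 ^ w * M) := by rw [pow_succ]; ring
      unfold T
      rw [if_neg (by omega), h1, h4]
      omega
    obtain ⟨j, rfl⟩ : ∃ i, j = i + 1 := ⟨j - 1, by omega⟩
    have h5 : w ≤ j := by
      by_contra hlt
      rw [Function.iterate_succ_apply, h3, T_pow_two M j w (by omega)] at hj
      obtain ⟨u, hu⟩ : ∃ u, w - j = u + 1 := ⟨w - j - 1, by omega⟩
      rw [hu, pow_succ] at hj
      have h6 : (2 : ℤ) ^ u * 2 * M = 2 * (2 ^ u * M) := by ring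
      rw [h6] at hj
      omega
    have h6 : T^[j + 1] N = T^[j - w] M := by
      rw [Function.iterate_succ_apply, h3]
      have h7 : j = (j - w) + w := by omega
      conv_lhs => rw [h7]
      rw [Function.iterate_add_apply, T_pow_two M w w le_rfl]
      simp
    rw [h6] at hj ⊢
    obtain ⟨k, hk⟩ := ih (j - w) (by omega) M h2 hj
    refine ⟨k + 1, ?_⟩
    rw [Function.iterate_succ_apply, syr_eq h1 h2, hk]

lemma T_neg {x : ℤ} (hx : x < 0) : T x < 0 := by
  unfold T
  split_ifs <;> omega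

lemma T_iter_neg {x : ℤ} (hx : x < 0) (k : ℕ) : T^[k] x < 0 := by
  induction k with
  | zero => exact hx
  | succ k ih => rw [Function.iterate_succ_apply']; exact T_neg ih

/-- a negative odd integer whose parity sequence has low complexity reaches a known cycle -/
theorem main_syr (c : ℝ) (hc : c < Real.log 2 / Real.log (3 / 2)) (N : ℤ) (hN : N < 0) (hodd : Odd N)
    (h1 : ∀ n : ℕ, 2 * (factors N n).ncard ≤ 5 * n + 40)
    (h2 : ∀ n0 : ℕ, ∃ n : ℕ, n0 ≤ n ∧ ((factors N n).ncard : ℝ) ≤ c * n) :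
    ∃ k : ℕ, Syr^[k] N ∈ ({-1, -5, -17} : Set ℤ) := by
  obtain ⟨j, hj⟩ := Seq.main c hc N h1 h2
  have h3 := T_iter_neg hN j
  have h4 : T^[j] N = -1 ∨ T^[j] N = -5 ∨ T^[j] N = -17 := by omega
  obtain ⟨k, hk⟩ := odd_reach j N (Int.odd_iff.1 hodd) (by omega)
  refine ⟨k, ?_⟩
  rw [hk]
  simpa using h4

/-- linear complexity below `log 2 / log (3/2)` infinitely often: the `T`-orbit is eventually
periodic -/
theorem bounded_orbit (c : ℝ) (hc : c < Real.log 2 / Real.log (3 / 2)) (x : ℤ)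
    (h2 : ∀ n0 : ℕ, ∃ n : ℕ, n0 ≤ n ∧ ((factors x n).ncard : ℝ) ≤ c * n) :
    ∃ i p : ℕ, 1 ≤ p ∧ T^[i + p] x = T^[i] x := by
  have hl2 : 0 < Real.log 2 := Real.log_pos (by norm_num)
  have hl32 : 0 < Real.log (3 / 2) := Real.log_pos (by norm_num)
  by_cases hinj : Function.Injective fun i => T^[i] x
  · exfalso
    set δ : ℝ := Real.log 2 - c * Real.log (3 / 2) with hδ
    have hδ0 : 0 < δ := by
      rw [lt_div_iff₀ hl32] at hc
      rw [hδ]; linarith
    obtain ⟨n0, hn0⟩ := exists_nat_gt ((Real.log 2 + Real.log (|(x : ℝ)| + 1)) / δ)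
    obtain ⟨n, hn, hcn⟩ := h2 (n0 + 1)
    obtain ⟨m, rfl⟩ : ∃ m, n = m + 1 := ⟨n - 1, by omega⟩
    have h3 := lower_inj hinj m
    have h4 : (factors x (m + 1)).ncard * Real.log (3 / 2) ≤ c * ((m + 1 : ℕ) : ℝ) * Real.log (3 / 2) :=
      mul_le_mul_of_nonneg_right hcn hl32.le
    have h5 : (n0 : ℝ) + 1 ≤ ((m + 1 : ℕ) : ℝ) := by exact_mod_cast hn
    rw [div_lt_iff₀ hδ0] at hn0
    have h6 : ((m + 1 : ℕ) : ℝ) * δ ≤ Real.log 2 + Real.log (|(x : ℝ)| + 1) := by
      rw [hδ]
      push_cast at h4 ⊢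
      nlinarith
    nlinarith
  · rw [Function.Injective] at hinj
    push Not at hinj
    obtain ⟨i', j', he', hne⟩ := hinj
    rcases lt_or_gt_of_ne hne with h | h
    · exact ⟨i', j' - i', by omega, by
        rw [show i' + (j' - i') = j' by omega]; exact he'.symm⟩
    · exact ⟨j', i' - j', by omega, by
        rw [show j' + (i' - j') = i' by omega]; exact he'⟩

end Pool.Agent.W42.Syr
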