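import Mathlib
import Pool.Agent.H547R3.Sub.Cyc

set_option autoImplicit false

/-!
Subword complexity of the parity words of the cycles of the maps `T_{q,k}`.
-/

namespace Pool.Agent.W42.CpxG

open Finset Pool.Agent.H547R3.Sub Filter

/-- `Z` is a cycle of `f` -/
def IsCyc (f : ℤ → ℤ) (Z : Finset ℤ) : Prop :=
  ∃ (x : ℤ) (p : ℕ), 1 ≤ p ∧ f^[p] x = x ∧ Z = (Finset.range p).image fun i => f^[i] x

theorem IsCyc.normal {f : ℤ → ℤ} {Z : Finset ℤ} (hZ : IsCyc f Z) : ∃ x : ℤ, x ∈ Z ∧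
    0 < Function.minimalPeriod f x ∧
    Z = (Finset.range (Function.minimalPeriod f x)).image (fun i => f^[i] x) ∧
    Z.card = Function.minimalPeriod f x := by
  classical
  obtain ⟨x, p, hp, hx, rfl⟩ := hZ
  have hper : Function.IsPeriodicPt f p x := hx
  have hpos : 0 < Function.minimalPeriod f x := hper.minimalPeriod_pos hp
  set m := Function.minimalPeriod f x with hm
  have hinj : Set.InjOn (fun i => f^[i] x) (Set.Iio m) := by
    rw [hm]; exact Function.iterate_injOn_Iio_minimalPeriod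
  have hset : (Finset.range p).image (fun i => f^[i] x) = (Finset.range m).image (fun i => f^[i] x) := by
    ext y
    simp only [mem_image, mem_range]
    constructor
    · rintro ⟨i, _, rfl⟩
      exact ⟨i % m, Nat.mod_lt _ hpos, Function.iterate_mod_minimalPeriod_eq⟩
    · rintro ⟨i, hi, rfl⟩
      have hle : m ≤ p := hper.minimalPeriod_le hp
      exact ⟨i, by omega, rfl⟩
  refine ⟨x, ?_, hpos, hset, ?_⟩
  · rw [mem_image]
    exact ⟨0, by rw [mem_range]; omega, rfl⟩
  · rw [hset, card_image_of_injOn, card_range]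
    intro i hi j hj h
    exact hinj (by simpa using hi) (by simpa using hj) h

theorem IsCyc.closed {f : ℤ → ℤ} {Z : Finset ℤ} (hZ : IsCyc f Z) {y : ℤ} (hy : y ∈ Z) (j : ℕ) :
    f^[j] y ∈ Z := by
  classical
  obtain ⟨x, -, hpos, hset, -⟩ := hZ.normal
  rw [hset, mem_image] at hy ⊢
  obtain ⟨i, hi, rfl⟩ := hy
  refine ⟨(j + i) % Function.minimalPeriod f x, mem_range.2 (Nat.mod_lt _ hpos), ?_⟩
  rw [Function.iterate_mod_minimalPeriod_eq, Function.iterate_add_apply]

theorem IsCyc.back {f : ℤ → ℤ} {Z : Finset ℤ} (hZ : IsCyc f Z) {y z : ℤ} (hy : y ∈ Z) (hz : z ∈ Z) :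
    ∃ j : ℕ, f^[j] y = z := by
  classical
  obtain ⟨x, -, hpos, hset, -⟩ := hZ.normal
  rw [hset, mem_image] at hy hz
  obtain ⟨i, hi, rfl⟩ := hy
  obtain ⟨j, hj, rfl⟩ := hz
  rw [mem_range] at hi hj
  set m := Function.minimalPeriod f x with hm
  refine ⟨j + (m - i), ?_⟩
  show f^[j + (m - i)] (f^[i] x) = f^[j] x
  rw [← Function.iterate_add_apply]
  have e : j + (m - i) + i = j + m := by omega
  rw [e, Function.iterate_add_apply, hm, Function.iterate_minimalPeriod]

theorem IsCyc.orbit {f : ℤ → ℤ} {Z : Finset ℤ} (hZ : IsCyc f Z) {x : ℤ} (hx : x ∈ Z) :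
    Function.minimalPeriod f x = Z.card ∧
      Z = (range (Function.minimalPeriod f x)).image fun i => f^[i] x := by
  classical
  obtain ⟨z, hzZ, hzpos, hzset, hzcard⟩ := hZ.normal
  have hmp : Function.minimalPeriod f x = Z.card := by
    obtain ⟨j, hj⟩ := hZ.back hzZ hx
    rw [← hj, Function.minimalPeriod_apply_iterate, hzcard]
    exact Function.minimalPeriod_pos_iff_mem_periodicPts.1 hzpos
  refine ⟨hmp, ?_⟩
  symm
  apply eq_of_subset_of_card_le
  · intro w hw
    rw [mem_image] at hw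
    obtain ⟨i, _, rfl⟩ := hw
    exact hZ.closed hx i
  · rw [card_image_of_injOn, card_range, hmp]
    intro i hi j hj h
    have hinj : Set.InjOn (fun i => f^[i] x) (Set.Iio (Function.minimalPeriod f x)) :=
      Function.iterate_injOn_Iio_minimalPeriod
    exact hinj (by simpa using hi) (by simpa using hj) h

theorem IsCyc.card_pos {f : ℤ → ℤ} {Z : Finset ℤ} (hZ : IsCyc f Z) : 0 < Z.card := by
  obtain ⟨x, hx, _⟩ := hZ.normal
  exact Finset.card_pos.2 ⟨x, hx⟩

/-- parity words -/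
def words (f : ℤ → ℤ) (Z : Finset ℤ) (n : ℕ) : Finset (Fin n → ℤ) :=
  Z.image fun x => fun j : Fin n => f^[(j : ℕ)] x % 2

section

variable {q k : ℤ}

theorem T2_even {x : ℤ} (h : x % 2 = 0) : 2 * Tm q k x = x := by
  unfold Tm; rw [if_pos h]; omega

theorem T2_odd (hq : q % 2 = 1) (hk : k % 2 = 1) {x : ℤ} (h : x % 2 = 1) :
    2 * Tm q k x = q * x + k := by
  unfold Tm; rw [if_neg (by omega)]
  have h2 : (q * x + k) % 2 = 0 := by
    rw [Int.add_emod, Int.mul_emod, hq, h, hk]; norm_num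
  omega

theorem same_par (hq : q % 2 = 1) (hk : k % 2 = 1) (n : ℕ) : ∀ (x y : ℤ),
    (∀ i < n, ((Tm q k)^[i] x) % 2 = ((Tm q k)^[i] y) % 2) → (2 : ℤ) ^ n ∣ x - y := by
  induction n with
  | zero => intro x y _; simp
  | succ n ih =>
    intro x y h
    have h0 : x % 2 = y % 2 := by simpa using h 0 (by omega)
    have h1 := ih (Tm q k x) (Tm q k y) (fun i hi => by
      have := h (i + 1) (by omega)
      simpa [Function.iterate_succ_apply] using this)
    obtain ⟨c, hc⟩ := h1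
    rcases Int.emod_two_eq_zero_or_one x with hx | hx
    · have a1 := T2_even (q := q) (k := k) hx
      have a2 := T2_even (q := q) (k := k) (h0 ▸ hx)
      refine ⟨c, ?_⟩
      rw [pow_succ]
      linear_combination (-1 : ℤ) * a1 + a2 + 2 * hc
    · have a1 := T2_odd hq hk hx
      have a2 := T2_odd hq hk (h0 ▸ hx)
      have h3 : (2 : ℤ) ^ (n + 1) ∣ q * (x - y) := ⟨c, by
        rw [pow_succ]; linear_combination (-1 : ℤ) * a1 + a2 + 2 * hc⟩
      have hcop : IsCoprime ((2 : ℤ) ^ (n + 1)) q := by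
        apply IsCoprime.pow_left
        refine ⟨-(q / 2), 1, ?_⟩
        omega
      exact hcop.dvd_of_dvd_mul_left h3

theorem words_inj (hq : q % 2 = 1) (hk : k % 2 = 1) {n : ℕ} {x y : ℤ} (hx : |x| < 2 ^ n)
    (hy : |y| < 2 ^ n)
    (h : (fun j : Fin (n + 1) => (Tm q k)^[(j : ℕ)] x % 2) =
      fun j : Fin (n + 1) => (Tm q k)^[(j : ℕ)] y % 2) : x = y := by
  have h1 : (2 : ℤ) ^ (n + 1) ∣ x - y := by
    apply same_par hq hk
    intro i hi
    exact congrFun h ⟨i, hi⟩
  have h2 : |x - y| < 2 ^ (n + 1) := by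
    refine lt_of_le_of_lt (abs_sub x y) ?_
    rw [pow_succ]; linarith
  have h3 : x - y = 0 := Int.eq_zero_of_abs_lt_dvd h1 h2
  linarith

theorem words_card (hq : q % 2 = 1) (hk : k % 2 = 1) (Z : Finset ℤ) (n : ℕ) :
    (Z.filter fun x => |x| < 2 ^ n).card ≤ (words (Tm q k) Z (n + 1)).card := by
  classical
  apply card_le_card_of_injOn (fun x => fun j : Fin (n + 1) => (Tm q k)^[(j : ℕ)] x % 2)
  · intro x hx
    rw [mem_coe, mem_filter] at hx
    rw [mem_coe]
    exact mem_image_of_mem _ hx.1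
  · intro x hx y hy h
    rw [mem_coe, mem_filter] at hx hy
    exact words_inj hq hk hx.2 hy.2 h

theorem up (hq : q % 2 = 1) (hk : k % 2 = 1) (hq3 : 3 ≤ q) (j : ℕ) (x : ℤ) :
    |(((Tm q k)^[j] x : ℤ) : ℝ)| + |(k : ℝ)| ≤ ((q : ℝ) / 2) ^ j * (|(x : ℝ)| + |(k : ℝ)|) := by
  have hq3' : (3 : ℝ) ≤ q := by exact_mod_cast hq3
  induction j with
  | zero => simp
  | succ j ih =>
    rw [Function.iterate_succ_apply', pow_succ]
    set z := (Tm q k)^[j] x with hz
    have h0 := abs_nonneg (z : ℝ)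
    have h0' := abs_nonneg (k : ℝ)
    have hstep : |((Tm q k z : ℤ) : ℝ)| + |(k : ℝ)| ≤ (q : ℝ) / 2 * (|(z : ℝ)| + |(k : ℝ)|) := by
      rcases Int.emod_two_eq_zero_or_one z with h | h
      · have h1 := T2_even (q := q) (k := k) h
        have h2 : (2 : ℝ) * ((Tm q k z : ℤ) : ℝ) = (z : ℝ) := by exact_mod_cast h1
        have h3 : |(z : ℝ)| = 2 * |((Tm q k z : ℤ) : ℝ)| := by
          rw [← h2, abs_mul]; norm_num
        nlinarith
      · have h1 := T2_odd hq hk h
        have h2 : (2 : ℝ) * ((Tm q k z : ℤ) : ℝ) = q * z + k := by exact_mod_cast h1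
        have h3 : 2 * |((Tm q k z : ℤ) : ℝ)| ≤ q * |(z : ℝ)| + |(k : ℝ)| := by
          have h4 : |(2 : ℝ) * ((Tm q k z : ℤ) : ℝ)| ≤ |(q : ℝ) * z| + |(k : ℝ)| := by
            rw [h2]; exact abs_add_le _ _
          rw [abs_mul, abs_mul] at h4
          have h5 : |(2 : ℝ)| = 2 := by norm_num
          have h6 : |(q : ℝ)| = q := abs_of_pos (by linarith)
          rw [h5, h6] at h4
          exact h4
        nlinarith
    calc _ ≤ (q : ℝ) / 2 * (|(z : ℝ)| + |(k : ℝ)|) := hstep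
      _ ≤ (q : ℝ) / 2 * (((q : ℝ) / 2) ^ j * (|(x : ℝ)| + |(k : ℝ)|)) :=
          mul_le_mul_of_nonneg_left ih (by linarith)
      _ = _ := by ring

theorem down (hq : q % 2 = 1) (hk : k % 2 = 1) (hq3 : 3 ≤ q) (j : ℕ) (x : ℤ) :
    |(x : ℝ)| + |(k : ℝ)| ≤ 2 ^ j * (|(((Tm q k)^[j] x : ℤ) : ℝ)| + |(k : ℝ)|) := by
  have hq3' : (3 : ℝ) ≤ q := by exact_mod_cast hq3
  induction j with
  | zero => simp
  | succ j ih =>
    rw [Function.iterate_succ_apply', pow_succ]
    set z := (Tm q k)^[j] x with hz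
    have h0 := abs_nonneg (z : ℝ)
    have h0' := abs_nonneg (k : ℝ)
    have hstep : |(z : ℝ)| + |(k : ℝ)| ≤ 2 * (|((Tm q k z : ℤ) : ℝ)| + |(k : ℝ)|) := by
      rcases Int.emod_two_eq_zero_or_one z with h | h
      · have h1 := T2_even (q := q) (k := k) h
        have h2 : (2 : ℝ) * ((Tm q k z : ℤ) : ℝ) = (z : ℝ) := by exact_mod_cast h1
        have h3 : |(z : ℝ)| = 2 * |((Tm q k z : ℤ) : ℝ)| := by
          rw [← h2, abs_mul]; norm_num
        linarith
      · have h1 := T2_odd hq hk h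
        have h2 : (2 : ℝ) * ((Tm q k z : ℤ) : ℝ) = q * z + k := by exact_mod_cast h1
        have h4 : |(q : ℝ) * z| ≤ |(2 : ℝ) * ((Tm q k z : ℤ) : ℝ)| + |(k : ℝ)| := by
          have : (q : ℝ) * z = 2 * ((Tm q k z : ℤ) : ℝ) - k := by linarith
          rw [this]; exact abs_sub _ _
        rw [abs_mul, abs_mul] at h4
        have h5 : |(2 : ℝ)| = 2 := by norm_num
        have h6 : |(q : ℝ)| = q := abs_of_pos (by linarith)
        rw [h5, h6] at h4
        nlinarith
    calc _ ≤ 2 ^ j * (|(z : ℝ)| + |(k : ℝ)|) := ih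
      _ ≤ 2 ^ j * (2 * (|((Tm q k z : ℤ) : ℝ)| + |(k : ℝ)|)) :=
          mul_le_mul_of_nonneg_left hstep (by positivity)
      _ = _ := by ring

end

/-- **Lower bound for the subword complexity**, for all maps `T_{q,k}`. -/
theorem main {q : ℕ} (hq : q.Prime) (hq2 : q ≠ 2) {k : ℤ} (hk : k % 2 = 1) (c : ℝ)
    (hc : c < 1 + Real.log 2 / Real.log (q / 2)) :
    ∃ A : ℝ, 1 ≤ A ∧ ∀ Z : Finset ℤ, IsCyc (Tm q k) Z →
      ∀ n : ℕ, A * (1 + Real.log Z.card) ^ 2 ≤ n →
        min (Z.card : ℝ) (c * n) ≤ (words (Tm q k) Z n).card := by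
  classical
  have hl2 : 0 < Real.log 2 := Real.log_pos (by norm_num)
  have hq1 : (q : ℤ) % 2 = 1 := by
    rcases hq.eq_two_or_odd with h | h
    · exact absurd h hq2
    · omega
  have hq3 : (3 : ℤ) ≤ q := by
    have := hq.two_le
    omega
  have hq3R : (3 : ℝ) ≤ q := by exact_mod_cast hq3
  have hlq : 0 < Real.log (q / 2) := Real.log_pos (by linarith)
  have hk0 : k ≠ 0 := by rintro rfl; simp at hk
  have hk1 : (1 : ℝ) ≤ |(k : ℝ)| := by
    have : (1 : ℤ) ≤ |k| := Int.one_le_abs hk0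
    exact_mod_cast this
  obtain ⟨B, hB0, hB⟩ := cycle_min hq hq2
  set u : ℝ := Real.log (q / 2) with hu
  set κ : ℝ := Real.log 2 / u + 1 with hκ
  set G : ℝ := Real.log 2 + (Real.log (2 * |(k : ℝ)|) + 1 + B) with hG
  have hlk : 0 ≤ Real.log (2 * |(k : ℝ)|) := Real.log_nonneg (by linarith)
  have hG0 : 0 < G := by rw [hG]; linarith
  set E : ℝ := G / u + G / Real.log 2 + 1 with hE
  have hE0 : 0 < E := by positivity
  refine ⟨max 1 (E / (κ - c)), le_max_left _ _, ?_⟩
  intro Z hZ n hn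
  have hp : 0 < Z.card := hZ.card_pos
  have hpr : (1 : ℝ) ≤ Z.card := by exact_mod_cast hp
  have hlp : 0 ≤ Real.log Z.card := Real.log_nonneg hpr
  have hsq1 : 1 ≤ (1 + Real.log Z.card) ^ 2 := by nlinarith
  have hn1 : (1 : ℝ) ≤ n := by
    refine le_trans ?_ hn
    have h1 : (1 : ℝ) ≤ max 1 (E / (κ - c)) := le_max_left _ _
    nlinarith
  have hn1' : 1 ≤ n := by exact_mod_cast hn1
  obtain ⟨m, rfl⟩ : ∃ m, n = m + 1 := ⟨n - 1, by omega⟩
  by_cases hall : ∀ x ∈ Z, |x| < 2 ^ m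
  · refine (min_le_left _ _).trans ?_
    have := words_card hq1 hk Z m
    rw [filter_true_of_mem hall] at this
    exact_mod_cast this
  refine (min_le_right _ _).trans ?_
  push Not at hall
  obtain ⟨y, hyZ, hy⟩ := hall
  obtain ⟨x0, hx0, hmin⟩ := exists_min_image Z (fun x => |x|) ⟨y, hyZ⟩
  have hx00 : x0 ≠ 0 := by
    rintro rfl
    obtain ⟨j, hj⟩ := hZ.back hx0 hyZ
    rw [Tm_zero] at hj
    rw [← hj] at hy
    have : (0 : ℤ) < 2 ^ m := by positivity
    simp at hy
    linarith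
  obtain ⟨hmp, hZset⟩ := hZ.orbit hx0
  rw [hmp] at hZset
  set p := Z.card with hpdef
  have hinj : Set.InjOn (fun i => (Tm q k)^[i] x0) (Set.Iio p) := by
    rw [← hmp]; exact Function.iterate_injOn_Iio_minimalPeriod
  have hper : (Tm q k)^[p] x0 = x0 := by rw [← hmp]; exact Function.iterate_minimalPeriod
  set S := (range p).filter fun i => 2 ^ m ≤ |(Tm q k)^[i] x0| with hS
  have hSne : S.Nonempty := by
    rw [hZset, mem_image] at hyZ
    obtain ⟨i, hi, rfl⟩ := hyZ
    exact ⟨i, mem_filter.2 ⟨hi, hy⟩⟩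
  set s := S.min' hSne with hs
  set t := S.max' hSne with ht
  have hsS : s ∈ S := min'_mem _ _
  have htS : t ∈ S := max'_mem _ _
  have hst : s ≤ t := min'_le _ _ htS
  rw [hS, mem_filter, mem_range] at hsS htS
  -- size of the least element
  have hx0pos : (1 : ℝ) ≤ |(x0 : ℝ)| := by
    have : (1 : ℤ) ≤ |x0| := Int.one_le_abs hx00
    exact_mod_cast this
  have hlogx0 : Real.log (|(x0 : ℝ)| + |(k : ℝ)|) ≤
      (Real.log (2 * |(k : ℝ)|) + 1 + B) * (1 + Real.log p) ^ 2 := by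
    have hp0 : (0 : ℝ) < p := by linarith
    have hexp1 : 1 ≤ Real.exp (B * (1 + Real.log p) ^ 2) := Real.one_le_exp (by positivity)
    have h1 : |(x0 : ℝ)| + |(k : ℝ)| ≤ 2 * |(k : ℝ)| * (p * Real.exp (B * (1 + Real.log p) ^ 2)) := by
      rcases le_or_gt |k| |x0| with h | h
      · have h2 := hB k hk x0 p hp hper hx00 (fun i => hmin _ (hZ.closed hx0 i)) h
        have h3 : |(k : ℝ)| ≤ |(x0 : ℝ)| := by exact_mod_cast h
        calc |(x0 : ℝ)| + |(k : ℝ)| ≤ 2 * |(x0 : ℝ)| := by linarith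
          _ ≤ 2 * (p * |(k : ℝ)| * Real.exp (B * (1 + Real.log p) ^ 2)) := by linarith
          _ = _ := by ring
      · have h3 : |(x0 : ℝ)| ≤ |(k : ℝ)| := by exact_mod_cast h.le
        have h4 : 1 ≤ p * Real.exp (B * (1 + Real.log p) ^ 2) := one_le_mul_of_one_le_of_one_le hpr hexp1
        nlinarith
    have h2 := Real.log_le_log (by linarith) h1
    have hk2 : 2 * |(k : ℝ)| ≠ 0 := (show 0 < 2 * |(k : ℝ)| by linarith).ne'
    have hpe : (p : ℝ) * Real.exp (B * (1 + Real.log p) ^ 2) ≠ 0 := (mul_pos hp0 (Real.exp_pos _)).ne'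
    rw [Real.log_mul hk2 hpe, Real.log_mul hp0.ne' (Real.exp_pos _).ne',
      Real.log_exp] at h2
    refine h2.trans ?_
    have h3 : Real.log p ≤ (1 + Real.log p) ^ 2 := by nlinarith
    nlinarith
  have hlow : ∀ w : ℤ, 2 ^ m ≤ |w| → (m : ℝ) * Real.log 2 ≤ Real.log (|(w : ℝ)| + |(k : ℝ)|) := by
    intro w hw
    rw [← Real.log_pow]
    apply Real.log_le_log (by positivity)
    have : (2 : ℝ) ^ m ≤ |(w : ℝ)| := by exact_mod_cast hw
    linarith
  set Q : ℝ := (1 + Real.log p) ^ 2 with hQ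
  have hup : (m : ℝ) * Real.log 2 ≤ s * u + (Real.log (2 * |(k : ℝ)|) + 1 + B) * Q := by
    have h1 := hlow _ hsS.2
    have h2 := up hq1 hk hq3 s x0
    rw [Int.cast_natCast] at h2
    have h3 := Real.log_le_log (by linarith [abs_nonneg (((Tm q k)^[s] x0 : ℤ) : ℝ)]) h2
    rw [Real.log_mul (pow_ne_zero _ (by linarith : (0 : ℝ) < (q : ℝ) / 2).ne')
      (show |(x0 : ℝ)| + |(k : ℝ)| ≠ 0 from (by linarith : (0:ℝ) < |(x0 : ℝ)| + |(k : ℝ)|).ne'), Real.log_pow] at h3
    linarith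
  set r := p - t with hr
  have hrt : r + t = p := by omega
  have hdown : (m : ℝ) * Real.log 2 ≤ r * Real.log 2 + (Real.log (2 * |(k : ℝ)|) + 1 + B) * Q := by
    have h1 := hlow _ htS.2
    have h2 := down hq1 hk hq3 r ((Tm q k)^[t] x0)
    rw [← Function.iterate_add_apply, hrt, hper] at h2
    have h3 := Real.log_le_log (by linarith [abs_nonneg (((Tm q k)^[t] x0 : ℤ) : ℝ)]) h2
    rw [Real.log_mul (pow_ne_zero _ two_ne_zero)
      (show |(x0 : ℝ)| + |(k : ℝ)| ≠ 0 from (by linarith : (0:ℝ) < |(x0 : ℝ)| + |(k : ℝ)|).ne'), Real.log_pow] at h3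
    linarith
  have hcount : s + r ≤ (Z.filter fun x => |x| < 2 ^ m).card + 1 := by
    have h1 : ((range s) ∪ (Ico (t + 1) p)).image (fun i => (Tm q k)^[i] x0) ⊆
        Z.filter fun x => |x| < 2 ^ m := by
      intro w hw
      rw [mem_image] at hw
      obtain ⟨i, hi, rfl⟩ := hw
      rw [mem_filter]
      refine ⟨hZ.closed hx0 i, ?_⟩
      by_contra hcon
      push Not at hcon
      rw [mem_union, mem_range, mem_Ico] at hi
      have hiS : i ∈ S := by
        rw [hS, mem_filter, mem_range]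
        refine ⟨?_, hcon⟩
        rcases hi with hi | hi
        · omega
        · exact hi.2
      rcases hi with hi | hi
      · have := min'_le S i hiS
        omega
      · have := le_max' S i hiS
        omega
    have h2 := card_le_card h1
    rw [card_image_of_injOn, card_union_of_disjoint, card_range, Nat.card_Ico] at h2
    · omega
    · rw [disjoint_left]
      intro i hi hi'
      rw [mem_range] at hi
      rw [mem_Ico] at hi'
      omega
    · intro i hi j hj h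
      rw [mem_coe, mem_union, mem_range, mem_Ico] at hi hj
      exact hinj (by rw [Set.mem_Iio]; omega) (by rw [Set.mem_Iio]; omega) h
  have hwc : ((Z.filter fun x => |x| < 2 ^ m).card : ℝ) ≤ (words (Tm q k) Z (m + 1)).card := by
    exact_mod_cast words_card hq1 hk Z m
  have hcount' : (s : ℝ) + r ≤ (Z.filter fun x => |x| < 2 ^ m).card + 1 := by exact_mod_cast hcount
  refine le_trans ?_ hwc
  have hκc : 0 < κ - c := by rw [hκ]; linarith
  have hnE : E * Q ≤ (κ - c) * ((m + 1 : ℕ) : ℝ) := by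
    have h1 : E / (κ - c) * Q ≤ ((m + 1 : ℕ) : ℝ) := by
      refine le_trans ?_ hn
      exact mul_le_mul_of_nonneg_right (le_max_right _ _) (by linarith)
    have h2 := mul_le_mul_of_nonneg_left h1 hκc.le
    have h3 : (κ - c) * (E / (κ - c) * Q) = E * Q := by
      field_simp
    linarith
  push_cast at hnE ⊢
  have hGQ : Real.log 2 + (Real.log (2 * |(k : ℝ)|) + 1 + B) * Q ≤ G * Q := by
    rw [hG, add_mul]
    nlinarith
  have hs' : ((m : ℝ) + 1) * (Real.log 2 / u) - G / u * Q ≤ s := by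
    have h1 : ((m : ℝ) + 1) * Real.log 2 - G * Q ≤ s * u := by linarith
    have h2 : (((m : ℝ) + 1) * Real.log 2 - G * Q) / u ≤ s := by
      rwa [div_le_iff₀ hlq]
    refine le_trans (le_of_eq ?_) h2
    field_simp
  have hr' : ((m : ℝ) + 1) - G / Real.log 2 * Q ≤ r := by
    have h1 : ((m : ℝ) + 1) * Real.log 2 - G * Q ≤ r * Real.log 2 := by linarith
    have h2 : (((m : ℝ) + 1) * Real.log 2 - G * Q) / Real.log 2 ≤ r := by
      rwa [div_le_iff₀ hl2]
    refine le_trans (le_of_eq ?_) h2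
    field_simp
  have hEe : E * Q = G / u * Q + G / Real.log 2 * Q + Q := by rw [hE]; ring
  have hκe : (κ - c) * ((m : ℝ) + 1) = ((m : ℝ) + 1) * (Real.log 2 / u) +
      ((m : ℝ) + 1) - c * ((m : ℝ) + 1) := by rw [hκ]; ring
  linarith

/-- finitely many cycles with at most `P` elements -/
theorem finite_of_card {q : ℕ} (hq : q.Prime) (hq2 : q ≠ 2) {k : ℤ} (hk : k % 2 = 1) (P : ℝ) :
    {Z : Finset ℤ | IsCyc (Tm q k) Z ∧ (Z.card : ℝ) ≤ P}.Finite := by
  classical
  have hfin : (⋃ p ∈ Finset.Icc 1 ⌊P⌋₊, {x : ℤ | (Tm q k)^[p] x = x}).Finite :=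
    Set.Finite.biUnion (Finset.finite_toSet _) (fun p hp => finite_per hq hq2 k hk p
      (Finset.mem_Icc.1 (Finset.mem_coe.1 hp)).1)
  apply Set.Finite.subset (hfin.image fun x =>
    (range (Function.minimalPeriod (Tm q k) x)).image fun i => (Tm q k)^[i] x)
  rintro Z ⟨hZ, hP⟩
  obtain ⟨x, hx⟩ := card_pos.1 hZ.card_pos
  obtain ⟨h1, h2⟩ := hZ.orbit hx
  refine ⟨x, ?_, h2.symm⟩
  simp only [Set.mem_iUnion]
  refine ⟨Z.card, ?_, ?_⟩
  · rw [Finset.mem_Icc]
    exact ⟨hZ.card_pos, Nat.le_floor hP⟩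
  · show (Tm q k)^[Z.card] x = x
    rw [← h1]; exact Function.iterate_minimalPeriod

/-- **Finiteness.** -/
theorem finite_low {q : ℕ} (hq : q.Prime) (hq2 : q ≠ 2) {k : ℤ} (hk : k % 2 = 1) (c : ℝ)
    (hc : c < 1 + Real.log 2 / Real.log (q / 2)) (C' : ℝ) :
    {Z : Finset ℤ | IsCyc (Tm q k) Z ∧
      ∀ n : ℕ, ((words (Tm q k) Z n).card : ℝ) ≤ c * n + C'}.Finite := by
  classical
  obtain ⟨c2, hc1, hc2⟩ := exists_between hc
  obtain ⟨A, hA1, hA⟩ := main hq hq2 hk c2 hc2
  have hlim : ∀ᶠ x : ℝ in atTop, |c| * (A * (1 + Real.log x) ^ 2 + 1) + |C'| < x := by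
    have hlog2 : Tendsto (fun x : ℝ => (Real.log x) ^ 2 / x) atTop (nhds 0) := by
      have := (isLittleO_log_rpow_rpow_atTop (r := 2) (s := 1) (by norm_num) : _)
      have h2 := this.tendsto_div_nhds_zero
      refine h2.congr' ?_
      filter_upwards [eventually_gt_atTop 0] with x hx
      simp
    have hlog1 : Tendsto (fun x : ℝ => Real.log x / x) atTop (nhds 0) :=
      Real.isLittleO_log_id_atTop.tendsto_div_nhds_zero
    have h1 : Tendsto (fun x : ℝ => (|c| * (A * (1 + Real.log x) ^ 2 + 1) + |C'|) / x) atTop (nhds 0) := by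
      have h2 : Tendsto (fun x : ℝ => (|c| * (A + 1) + |C'|) / x + |c| * A * 2 * (Real.log x / x) +
          |c| * A * ((Real.log x) ^ 2 / x)) atTop (nhds (0 + |c| * A * 2 * 0 + |c| * A * 0)) := by
        apply Tendsto.add
        · apply Tendsto.add
          · exact Tendsto.div_atTop tendsto_const_nhds tendsto_id
          · exact Tendsto.const_mul _ hlog1
        · exact Tendsto.const_mul _ hlog2
      rw [mul_zero, mul_zero, add_zero, add_zero] at h2
      refine h2.congr' ?_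
      filter_upwards [eventually_gt_atTop 0] with x hx
      field_simp
      ring
    filter_upwards [h1.eventually (gt_mem_nhds (show (0 : ℝ) < 1 by norm_num)), eventually_gt_atTop 0]
      with x h3 h4
    rwa [div_lt_one h4] at h3
  obtain ⟨P1, hP1⟩ := eventually_atTop.1 hlim
  apply Set.Finite.subset (finite_of_card hq hq2 hk (max P1 (Real.exp (|C'| / (c2 - c)))))
  rintro Z ⟨hZ, hw⟩
  refine ⟨hZ, ?_⟩
  by_contra hcon
  push Not at hcon
  have hp : (1 : ℝ) ≤ Z.card := by exact_mod_cast hZ.card_pos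
  have hlp : 0 ≤ Real.log Z.card := Real.log_nonneg hp
  have hA0 : 0 ≤ A * (1 + Real.log Z.card) ^ 2 := by positivity
  set n := ⌈A * (1 + Real.log Z.card) ^ 2⌉₊ with hn
  have hn1 : A * (1 + Real.log Z.card) ^ 2 ≤ n := Nat.le_ceil _
  have hn2 : (n : ℝ) < A * (1 + Real.log Z.card) ^ 2 + 1 := Nat.ceil_lt_add_one hA0
  have h1 := hA Z hZ n hn1
  have h2 := h1.trans (hw n)
  rcases min_le_iff.1 h2 with h3 | h3
  · have h4 := hP1 Z.card ((le_max_left _ _).trans hcon.le)
    have h5 : c * n ≤ |c| * (A * (1 + Real.log Z.card) ^ 2 + 1) := by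
      calc c * n ≤ |c| * n := mul_le_mul_of_nonneg_right (le_abs_self c) (Nat.cast_nonneg _)
        _ ≤ _ := mul_le_mul_of_nonneg_left hn2.le (abs_nonneg _)
    have h6 := le_abs_self C'
    linarith
  · have h4 : (c2 - c) * n ≤ |C'| := by have := le_abs_self C'; linarith
    have h5 : (n : ℝ) ≤ |C'| / (c2 - c) := by
      rw [le_div_iff₀ (by linarith)]; linarith
    have h6 : Real.log Z.card ≤ |C'| / (c2 - c) := by
      have : Real.log Z.card ≤ A * (1 + Real.log Z.card) ^ 2 := by nlinarith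
      linarith
    have h7 : (Z.card : ℝ) ≤ Real.exp (|C'| / (c2 - c)) := by
      rwa [← Real.log_le_iff_le_exp (by linarith)]
    have h8 := (le_max_right P1 (Real.exp (|C'| / (c2 - c)))).trans_lt hcon
    linarith

end Pool.Agent.W42.CpxG
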