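import Mathlib
import Pool.Agent.W42.Cpx2

set_option autoImplicit false

/-!
Entropy of the parity words against the oscillation of a cycle of the 3x+1 map.
-/

namespace Pool.Agent.W42.Ent

open Finset Pool.Agent.H319R2 Pool.Agent.H547R3 Pool.Agent.W42.Cpx

theorem part_sum (Z : Finset ℤ) (C b : ℝ) (l : ℕ) (hmin : ∀ x ∈ Z, 2 ^ l ≤ |x|)
    (hF : ∀ i : ℕ, ((Z.filter fun x => |x| < 2 ^ i).card : ℝ) ≤ C * b ^ i) (j : ℕ) :
    ∑ x ∈ Z.filter (fun x => |x| < 2 ^ (l + j)), 1 / |(x : ℝ)| ≤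
      C * b * (b / 2) ^ l * ∑ i ∈ range j, (b / 2) ^ i := by
  classical
  induction j with
  | zero =>
    have h0 : Z.filter (fun x => |x| < 2 ^ (l + 0)) = ∅ := by
      rw [filter_eq_empty_iff]
      intro x hx h
      have := hmin x hx
      rw [add_zero] at h
      exact absurd h (not_lt.2 this)
    rw [h0]
    simp
  | succ j ih =>
    set A := Z.filter (fun x => |x| < 2 ^ (l + j)) with hA
    set B := Z.filter (fun x => |x| < 2 ^ (l + (j + 1))) with hB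
    have hAB : A ⊆ B := by
      intro x hx
      rw [hA, mem_filter] at hx
      rw [hB, mem_filter]
      refine ⟨hx.1, hx.2.trans_le ?_⟩
      exact pow_le_pow_right₀ (by norm_num) (by omega)
    have hsd := sum_sdiff (f := fun x : ℤ => 1 / |(x : ℝ)|) hAB
    rw [← hsd]
    have hnew : ∑ x ∈ B \ A, 1 / |(x : ℝ)| ≤ (B \ A).card • (1 / (2 : ℝ) ^ (l + j)) := by
      apply sum_le_card_nsmul
      intro x hx
      rw [mem_sdiff, hA, hB, mem_filter, mem_filter] at hx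
      apply one_div_le_one_div_of_le (by positivity)
      have : 2 ^ (l + j) ≤ |x| := by
        by_contra hcon
        push Not at hcon
        exact hx.2 ⟨hx.1.1, hcon⟩
      exact_mod_cast this
    have hcard : ((B \ A).card : ℝ) ≤ B.card := by
      exact_mod_cast card_le_card sdiff_subset
    rw [nsmul_eq_mul] at hnew
    have hFB := hF (l + (j + 1))
    rw [← hB] at hFB
    have h1 : ((B \ A).card : ℝ) * (1 / (2 : ℝ) ^ (l + j)) ≤ C * b ^ (l + (j + 1)) * (1 / (2 : ℝ) ^ (l + j)) :=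
      mul_le_mul_of_nonneg_right (hcard.trans hFB) (by positivity)
    have h2 : C * b ^ (l + (j + 1)) * (1 / (2 : ℝ) ^ (l + j)) = C * b * (b / 2) ^ l * (b / 2) ^ j := by
      rw [div_pow, div_pow, pow_add, pow_add, pow_succ]
      field_simp
      ring
    rw [sum_range_succ, mul_add]
    linarith

theorem recip_sum (Z : Finset ℤ) (C b : ℝ) (hC : 0 ≤ C) (hb0 : 0 < b) (hb : b < 2) (l : ℕ)
    (hmin : ∀ x ∈ Z, 2 ^ l ≤ |x|)
    (hF : ∀ i : ℕ, ((Z.filter fun x => |x| < 2 ^ i).card : ℝ) ≤ C * b ^ i) :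
    ∑ x ∈ Z, 1 / |(x : ℝ)| ≤ C * b * (b / 2) ^ l * (1 - b / 2)⁻¹ := by
  classical
  obtain ⟨j, hj⟩ : ∃ j : ℕ, ∀ x ∈ Z, |x| < 2 ^ (l + j) := by
    refine ⟨∑ x ∈ Z, x.natAbs, ?_⟩
    intro x hx
    have h1 : x.natAbs < 2 ^ x.natAbs := Nat.lt_two_pow_self
    have h0 : x.natAbs ≤ ∑ x ∈ Z, x.natAbs := single_le_sum (f := fun x : ℤ => x.natAbs) (fun _ _ => Nat.zero_le _) hx
    have h2 : (2 : ℕ) ^ x.natAbs ≤ 2 ^ (l + ∑ x ∈ Z, x.natAbs) :=
      Nat.pow_le_pow_right (by norm_num) (by omega)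
    have h3 : (x.natAbs : ℤ) < ((2 ^ (l + ∑ x ∈ Z, x.natAbs) : ℕ) : ℤ) := by exact_mod_cast h1.trans_le h2
    rw [← Int.abs_eq_natAbs] at h3
    push_cast at h3
    push_cast
    exact h3
  have h1 := part_sum Z C b l hmin hF j
  rw [filter_true_of_mem hj] at h1
  refine h1.trans ?_
  apply mul_le_mul_of_nonneg_left _ (by positivity)
  have hb2 : b / 2 < 1 := by linarith
  have hb3 : 0 ≤ b / 2 := by positivity
  rw [← tsum_geometric_of_lt_one hb3 hb2]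
  exact (summable_geometric_of_lt_one hb3 hb2).sum_le_tsum _ (fun i _ => by positivity)

/-- the main inequality -/
theorem min_le (K C δ : ℝ) (hδ : 0 ≤ δ) (hK : 0 ≤ K) (h : δ * (13 * K + 1) < 1) :
    ∃ L : ℝ, ∀ Z : Finset ℤ, IsCycle Z → (0 : ℤ) ∉ Z →
      (∀ x ∈ Z, ∀ y ∈ Z, |(x : ℝ)| ≤ C * |(y : ℝ)| ^ K) →
      (∀ n : ℕ, ((words Z n).card : ℝ) ≤ C * 2 ^ (δ * n)) →
      ∀ x ∈ Z, (∀ y ∈ Z, |x| ≤ |y|) → |(x : ℝ)| ≤ L := by
  classical
  obtain ⟨c, hc, hm⟩ := Pool.Agent.H319R2.measure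
  have hδ1 : δ < 1 := by nlinarith
  set b : ℝ := (2 : ℝ) ^ δ with hb
  have hb1 : 1 ≤ b := Real.one_le_rpow (by norm_num) hδ
  have hb0 : 0 < b := by linarith
  have hb2 : b < 2 := by
    have := Real.rpow_lt_rpow_of_exponent_lt (x := 2) (by norm_num) hδ1
    rwa [Real.rpow_one] at this
  set C' : ℝ := max C 1 with hC'
  have hC'1 : 1 ≤ C' := le_max_right _ _
  have hC'0 : 0 < C' := by linarith
  have hCC' : C ≤ C' := le_max_left _ _
  -- exponent
  set e : ℝ := 1 - δ * (13 * K + 1) with he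
  have he0 : 0 < e := by rw [he]; linarith
  set G : ℝ := (2 * (C' * b ^ 2 * C' ^ δ)) ^ 13 * (1 / 2 * (C' * b * (b * 2 ^ (1 - δ)) * (1 - b / 2)⁻¹)) with hG
  refine ⟨(G / c) ^ (1 / e), ?_⟩
  intro Z hZ h0 hosc hwords x hx hmin
  have hx0 : x ≠ 0 := fun hh => h0 (hh ▸ hx)
  have hm1 : (1 : ℝ) ≤ |(x : ℝ)| := by
    have : (1 : ℤ) ≤ |x| := Int.one_le_abs hx0
    exact_mod_cast this
  set m : ℝ := |(x : ℝ)| with hmdef
  have hm0 : 0 < m := by linarith
  -- counting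
  have hF : ∀ i : ℕ, ((Z.filter fun x => |x| < 2 ^ i).card : ℝ) ≤ C' * b * b ^ i := by
    intro i
    have h1 : (((Z.filter fun x => |x| < 2 ^ i).card : ℕ) : ℝ) ≤ ((words Z (i + 1)).card : ℝ) := by
      exact_mod_cast words_card Z i
    refine h1.trans ((hwords (i + 1)).trans ?_)
    have h2 : (2 : ℝ) ^ (δ * ((i + 1 : ℕ) : ℝ)) = b ^ (i + 1) := by
      rw [Real.rpow_mul (by norm_num), Real.rpow_natCast]
    rw [h2, pow_succ]
    have : 0 ≤ b ^ i * b := by positivity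
    nlinarith
  -- dyadic position of the least element
  set l := Nat.log 2 x.natAbs with hl
  have hna : x.natAbs ≠ 0 := Int.natAbs_ne_zero.2 hx0
  have hl1 : 2 ^ l ≤ |x| := by
    have := Nat.pow_log_le_self 2 hna
    rw [← hl] at this
    have h2 : ((2 ^ l : ℕ) : ℤ) ≤ (x.natAbs : ℤ) := by exact_mod_cast this
    rw [← Int.abs_eq_natAbs] at h2
    push_cast at h2
    exact h2
  have hl2 : |x| < 2 ^ (l + 1) := by
    have := Nat.lt_pow_succ_log_self (b := 2) (by norm_num) x.natAbs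
    have h2 : (x.natAbs : ℤ) < ((2 ^ (l + 1) : ℕ) : ℤ) := by exact_mod_cast this
    rw [← Int.abs_eq_natAbs] at h2
    push_cast at h2
    exact h2
  have hl2r : m < 2 ^ (l + 1) := by rw [hmdef]; exact_mod_cast hl2
  have hrec := recip_sum Z (C' * b) b (by positivity) hb0 hb2 l (fun y hy => hl1.trans (hmin y hy)) hF
  have hform := hZ.form_le h0
  -- size of the power of `b / 2`
  have hq : (b / 2) ^ l ≤ 2 ^ (1 - δ) * m ^ (δ - 1) := by
    have e1 : (b / 2 : ℝ) ^ l = ((2 : ℝ) ^ l) ^ (δ - 1) := by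
      rw [hb, ← Real.rpow_natCast ((2 : ℝ) ^ δ / 2) l, ← Real.rpow_natCast (2 : ℝ) l, ← Real.rpow_mul (by norm_num)]
      have : (2 : ℝ) ^ δ / 2 = 2 ^ (δ - 1) := by rw [Real.rpow_sub (by norm_num), Real.rpow_one]
      rw [this, ← Real.rpow_mul (by norm_num)]
      ring_nf
    rw [e1]
    have e2 : (2 : ℝ) ^ (1 - δ) * m ^ (δ - 1) = (m / 2) ^ (δ - 1) := by
      rw [Real.div_rpow hm0.le (by norm_num), show (1 - δ) = -(δ - 1) by ring, Real.rpow_neg (by norm_num)]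
      field_simp
    rw [e2]
    apply Real.rpow_le_rpow_of_nonpos (by positivity)
    · rw [pow_succ] at hl2r; linarith
    · linarith
  -- number of elements
  obtain ⟨y, hyZ, hymax⟩ := exists_max_image Z (fun x => |x|) ⟨x, hx⟩
  have hy0 : y ≠ 0 := fun hh => h0 (hh ▸ hyZ)
  set n := Nat.log 2 y.natAbs with hn
  have hnb : y.natAbs ≠ 0 := Int.natAbs_ne_zero.2 hy0
  have hn1 : (2 : ℝ) ^ n ≤ |(y : ℝ)| := by
    have := Nat.pow_log_le_self 2 hnb
    rw [← hn] at this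
    have h2 : ((2 ^ n : ℕ) : ℤ) ≤ (y.natAbs : ℤ) := by exact_mod_cast this
    rw [← Int.abs_eq_natAbs] at h2
    exact_mod_cast h2
  have hn2 : |y| < 2 ^ (n + 1) := by
    have := Nat.lt_pow_succ_log_self (b := 2) (by norm_num) y.natAbs
    have h2 : (y.natAbs : ℤ) < ((2 ^ (n + 1) : ℕ) : ℤ) := by exact_mod_cast this
    rw [← Int.abs_eq_natAbs] at h2
    push_cast at h2
    exact h2
  have hall : Z.filter (fun x => |x| < 2 ^ (n + 1)) = Z := by
    apply filter_true_of_mem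
    intro z hz
    exact (hymax z hz).trans_lt hn2
  have hp := hF (n + 1)
  rw [hall] at hp
  have hM : |(y : ℝ)| ≤ C' * m ^ K := by
    refine (hosc y hyZ x hx).trans ?_
    exact mul_le_mul_of_nonneg_right hCC' (by positivity)
  have hbn : b ^ n ≤ C' ^ δ * m ^ (K * δ) := by
    have e1 : b ^ n = ((2 : ℝ) ^ n) ^ δ := by
      rw [hb, ← Real.rpow_natCast, ← Real.rpow_natCast, ← Real.rpow_mul (by norm_num), ← Real.rpow_mul (by norm_num)]
      ring_nf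
    rw [e1, Real.rpow_mul hm0.le, ← Real.mul_rpow hC'0.le (by positivity)]
    exact Real.rpow_le_rpow (by positivity) (hn1.trans hM) hδ
  have hp2 : (Z.card : ℝ) ≤ C' * b ^ 2 * C' ^ δ * m ^ (K * δ) := by
    refine hp.trans ?_
    rw [pow_succ]
    have : C' * b * (b ^ n * b) = C' * b ^ 2 * b ^ n := by ring
    rw [this, mul_assoc (C' * b ^ 2)]
    exact mul_le_mul_of_nonneg_left hbn (by positivity)
  have hppos : 0 < Z.card := hZ.card_pos
  have hodds : odds Z ≤ Z.card := by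
    rw [odds]
    exact card_filter_le _ _
  -- the measure
  have hmm := hm (Z.card : ℤ) (-(odds Z : ℤ)) (Or.inl (by exact_mod_cast hppos.ne'))
  have h3 : ((|(Z.card : ℤ)| + |(-(odds Z : ℤ))| : ℤ) : ℝ) ≤ 2 * Z.card := by
    have : |(Z.card : ℤ)| + |(-(odds Z : ℤ))| ≤ 2 * Z.card := by
      rw [abs_neg, abs_of_nonneg (by positivity), abs_of_nonneg (by positivity)]
      omega
    exact_mod_cast this
  have h4 : (0 : ℝ) ≤ ((|(Z.card : ℤ)| + |(-(odds Z : ℤ))| : ℤ) : ℝ) := by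
    have : (0 : ℤ) ≤ |(Z.card : ℤ)| + |(-(odds Z : ℤ))| := by positivity
    exact_mod_cast this
  have e5 : ((Z.card : ℤ) : ℝ) * Real.log 2 + ((-(odds Z : ℤ) : ℤ) : ℝ) * Real.log 3 =
      (Z.card : ℝ) * Real.log 2 - odds Z * Real.log 3 := by push_cast; ring
  rw [e5] at hmm
  have hSig : 1 / 2 * ∑ x ∈ Z, 1 / |(x : ℝ)| ≤
      1 / 2 * (C' * b * (b * 2 ^ (1 - δ)) * (1 - b / 2)⁻¹) * m ^ (δ - 1) := by
    have hinv : 0 ≤ (1 - b / 2)⁻¹ := inv_nonneg.2 (by linarith)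
    have : C' * b * b * (b / 2) ^ l * (1 - b / 2)⁻¹ ≤ C' * b * b * (2 ^ (1 - δ) * m ^ (δ - 1)) * (1 - b / 2)⁻¹ := by
      apply mul_le_mul_of_nonneg_right _ hinv
      exact mul_le_mul_of_nonneg_left hq (by positivity)
    have h2 := hrec.trans this
    calc 1 / 2 * ∑ x ∈ Z, 1 / |(x : ℝ)| ≤ 1 / 2 * (C' * b * b * (2 ^ (1 - δ) * m ^ (δ - 1)) * (1 - b / 2)⁻¹) := by
          linarith
      _ = _ := by ring
  have h6 : c ≤ (2 * (C' * b ^ 2 * C' ^ δ * m ^ (K * δ))) ^ 13 *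
      (1 / 2 * (C' * b * (b * 2 ^ (1 - δ)) * (1 - b / 2)⁻¹) * m ^ (δ - 1)) := by
    refine hmm.trans (mul_le_mul ?_ (hform.trans hSig) (abs_nonneg _) (by positivity))
    exact pow_le_pow_left₀ h4 (h3.trans (by linarith)) 13
  have h7 : (2 * (C' * b ^ 2 * C' ^ δ * m ^ (K * δ))) ^ 13 *
      (1 / 2 * (C' * b * (b * 2 ^ (1 - δ)) * (1 - b / 2)⁻¹) * m ^ (δ - 1)) = G * m ^ (-e) := by
    have e8 : (m ^ (K * δ)) ^ 13 * m ^ (δ - 1) = m ^ (-e) := by
      rw [← Real.rpow_natCast (m ^ (K * δ)) 13, ← Real.rpow_mul hm0.le, ← Real.rpow_add hm0, he]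
      congr 1
      push_cast
      ring
    rw [← e8, hG]
    ring
  rw [h7] at h6
  have hG0 : 0 ≤ G / c := by
    have hinv : 0 ≤ (1 - b / 2)⁻¹ := inv_nonneg.2 (by linarith)
    have : 0 ≤ G := by rw [hG]; positivity
    positivity
  have h8 : m ^ e ≤ G / c := by
    rw [Real.rpow_neg hm0.le] at h6
    have hme : 0 < m ^ e := by positivity
    rw [le_div_iff₀ hc]
    have : c * m ^ e ≤ G * (m ^ e)⁻¹ * m ^ e := mul_le_mul_of_nonneg_right h6 hme.le
    rw [mul_assoc, inv_mul_cancel₀ hme.ne', mul_one] at this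
    linarith
  calc m = (m ^ e) ^ (1 / e) := by
        rw [← Real.rpow_mul hm0.le, mul_one_div_cancel he0.ne', Real.rpow_one]
    _ ≤ (G / c) ^ (1 / e) := Real.rpow_le_rpow (by positivity) h8 (by positivity)

/-- **Entropy against oscillation.** -/
theorem finite_entropy (K C δ : ℝ) (hδ : 0 ≤ δ) (hK : 0 ≤ K) (h : δ * (13 * K + 1) < 1) :
    {Z : Finset ℤ | IsCycle Z ∧ (∀ x ∈ Z, ∀ y ∈ Z, |(x : ℝ)| ≤ C * |(y : ℝ)| ^ K) ∧
      ∀ n : ℕ, ((words Z n).card : ℝ) ≤ C * 2 ^ (δ * n)}.Finite := by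
  classical
  obtain ⟨L, hL⟩ := min_le K C δ hδ hK h
  apply Set.Finite.subset (finite_of_min (max 0 ⌈L⌉))
  rintro Z ⟨hZ, hosc, hw⟩
  refine ⟨hZ, ?_⟩
  obtain ⟨x, hx, hmin⟩ := exists_min_image Z (fun x => |x|) (card_pos.1 hZ.card_pos)
  by_cases h0 : (0 : ℤ) ∈ Z
  · exact ⟨0, h0, by simp⟩
  refine ⟨x, hx, ?_⟩
  have h1 := hL Z hZ h0 hosc hw x hx hmin
  have h2 : (|x| : ℝ) ≤ ⌈L⌉ := h1.trans (Int.le_ceil L)
  have h3 : |x| ≤ ⌈L⌉ := by exact_mod_cast h2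
  exact h3.trans (le_max_right _ _)

end Pool.Agent.W42.Ent
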