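import Mathlib
import Pool.Agent.H319R2.Sparse

set_option autoImplicit false

/-!
Sets on which the 3x+1 map is essentially injective are uniformly sparse in all intervals.
-/

namespace Pool.Agent.W42

open Finset Pool.Agent.H319R2

/-- elements of `S` in `[a, a + L)` -/
noncomputable def WS (S : Set ℤ) (a L : ℤ) : Finset ℤ := by
  classical
  exact (Finset.Ico a (a + L)).filter fun x => x ∈ S

theorem mem_WS {S : Set ℤ} {a L : ℤ} {x : ℤ} : x ∈ WS S a L ↔ (a ≤ x ∧ x < a + L) ∧ x ∈ S := by
  classical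
  unfold WS
  rw [mem_filter, mem_Ico]

theorem WS_card_le (S : Set ℤ) (a : ℤ) (k : ℕ) : (WS S a (2 ^ k)).card ≤ 2 ^ k := by
  classical
  unfold WS
  refine (card_filter_le _ _).trans ?_
  rw [Int.card_Ico]
  have : (0 : ℤ) < 2 ^ k := by positivity
  zify
  rw [Int.toNat_of_nonneg (by linarith)]
  linarith

theorem WS_mono (S : Set ℤ) (a : ℤ) {L L' : ℤ} (h : L ≤ L') : WS S a L ⊆ WS S a L' := by
  intro x hx
  rw [mem_WS] at hx ⊢
  exact ⟨⟨hx.1.1, by linarith [hx.1.2]⟩, hx.2⟩

/-- a window of length `3 L` is covered by three windows of length `L` -/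
theorem WS_three (S : Set ℤ) (a L : ℤ) (M : ℕ) (h : ∀ b, (WS S b L).card ≤ M) :
    (WS S a (3 * L)).card ≤ 3 * M := by
  classical
  have hsub : WS S a (3 * L) ⊆ WS S a L ∪ (WS S (a + L) L ∪ WS S (a + 2 * L) L) := by
    intro x hx
    rw [mem_WS] at hx
    rw [mem_union, mem_union, mem_WS, mem_WS, mem_WS]
    rcases lt_or_ge x (a + L) with h1 | h1
    · exact Or.inl ⟨⟨hx.1.1, h1⟩, hx.2⟩
    · rcases lt_or_ge x (a + 2 * L) with h2 | h2
      · exact Or.inr (Or.inl ⟨⟨h1, by linarith⟩, hx.2⟩)
      · exact Or.inr (Or.inr ⟨⟨h2, by linarith [hx.1.2]⟩, hx.2⟩)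
  have h1 := card_le_card hsub
  have h2 := card_union_le (WS S a L) (WS S (a + L) L ∪ WS S (a + 2 * L) L)
  have h3 := card_union_le (WS S (a + L) L) (WS S (a + 2 * L) L)
  have h4 := h a
  have h5 := h (a + L)
  have h6 := h (a + 2 * L)
  omega

/-- elements with many odd terms -/
theorem high_le' (S : Set ℤ) (a : ℤ) (k : ℕ) (θ : ℝ) (h1 : 1 / 2 < θ) (h2 : θ < 1) :
    ((((WS S a (2 ^ k)).filter fun x => θ * k < (od k x : ℝ)).card : ℕ) : ℝ) ≤
      Real.exp (k * Real.binEntropy θ) := by
  classical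
  refine le_trans ?_ (chernoff k θ h1 h2)
  have : ((WS S a (2 ^ k)).filter fun x => θ * k < (od k x : ℝ)).card ≤
      ((range k).powerset.filter fun s => θ * k < (s.card : ℝ)).card := by
    apply card_le_card_of_injOn (pset k)
    · intro x hx
      have hx := mem_filter.1 hx
      simp only [coe_filter, mem_powerset, Set.mem_ofPred_eq]
      exact ⟨filter_subset _ _, hx.2⟩
    · intro x hx y hy hxy
      have hx := mem_filter.1 hx
      have hy := mem_filter.1 hy
      obtain ⟨c, hc⟩ := pset_inj hxy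
      have hx1 := (mem_WS.1 hx.1).1
      have hy1 := (mem_WS.1 hy.1).1
      have hp : (0 : ℤ) < 2 ^ k := by positivity
      have hc0 : c = 0 := by
        rcases lt_trichotomy c 0 with h | h | h
        · nlinarith [hx1.1, hx1.2, hy1.1, hy1.2]
        · exact h
        · nlinarith [hx1.1, hx1.2, hy1.1, hy1.2]
      rw [hc0] at hc; linarith
  exact_mod_cast this

/-- the image of a window of length `2 ^ k` under `T^[k]`, for a fixed number of odd terms -/
theorem window_image {a x : ℤ} {k : ℕ} (h : a ≤ x ∧ x < a + 2 ^ k) :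
    3 ^ (od k x) * (a / 2 ^ k - 1) ≤ T^[k] x ∧
      T^[k] x < 3 ^ (od k x) * (a / 2 ^ k - 1) + 3 * 3 ^ (od k x) := by
  have hp : (0 : ℤ) < 2 ^ k := by positivity
  have e := Int.emod_add_mul_ediv a (2 ^ k)
  have e0 := Int.emod_nonneg a hp.ne'
  have e1 := Int.emod_lt_of_pos a hp
  set c := a / 2 ^ k with hc
  have l1 := lt_pow k x (c + 2) (by nlinarith [h.1, h.2])
  have l2 := neg_pow_lt k x (1 - c) (by nlinarith [h.1, h.2])
  constructor
  · linarith
  · linarith

theorem low_le' {S : Set ℤ} (hS : Tame S) (a : ℤ) (k k' : ℕ) (θ : ℝ) (M : ℕ)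
    (hk : θ * k * Real.log 3 ≤ k' * Real.log 2) (hM : ∀ b, (WS S b (2 ^ k')).card ≤ M) :
    ((WS S a (2 ^ k)).filter fun x => (od k x : ℝ) ≤ θ * k).card ≤ (k + 1) * (3 * M) + k := by
  classical
  obtain ⟨B, hB, hmap, hinj⟩ := hS k
  set G := (WS S a (2 ^ k)).filter fun x => (od k x : ℝ) ≤ θ * k with hG
  have hsub : G ⊆ (G \ B) ∪ B := by
    intro x hx
    rw [mem_union, mem_sdiff]
    by_cases h : x ∈ B
    · exact Or.inr h
    · exact Or.inl ⟨hx, h⟩
  refine (card_le_card hsub).trans ((card_union_le _ _).trans (Nat.add_le_add ?_ hB))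
  have hmaps : ∀ x ∈ G \ B, od k x ∈ range (k + 1) := by
    intro x _
    rw [mem_range]
    exact Nat.lt_succ_of_le (od_le k x)
  rw [card_eq_sum_card_fiberwise hmaps]
  have hle : ∀ o ∈ range (k + 1), ((G \ B).filter fun x => od k x = o).card ≤ 3 * M := by
    intro o _
    set L : ℤ := 3 ^ o with hL
    rcases Finset.eq_empty_or_nonempty ((G \ B).filter fun x => od k x = o) with he | ⟨x0, hx0⟩
    · rw [he, card_empty]; exact Nat.zero_le _
    · have hLk : L ≤ 2 ^ k' := by
        have h0 := mem_filter.1 hx0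
        have h1 := mem_sdiff.1 h0.1
        have h2 := (mem_filter.1 h1.1).2
        rw [h0.2] at h2
        have : (3 : ℝ) ^ o ≤ 2 ^ k' := by
          rw [← Real.log_le_log_iff (by positivity) (by positivity), Real.log_pow, Real.log_pow]
          have h3 : 0 < Real.log 3 := Real.log_pos (by norm_num)
          nlinarith
        rw [hL]
        exact_mod_cast this
      have hML : ∀ b, (WS S b L).card ≤ M := fun b => (card_le_card (WS_mono S b hLk)).trans (hM b)
      refine le_trans ?_ (WS_three S (L * (a / 2 ^ k - 1)) L M hML)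
      apply card_le_card_of_injOn (T^[k])
      · intro x hx
        have h0 := mem_filter.1 hx
        have h1 := mem_sdiff.1 h0.1
        have h2 := (mem_filter.1 h1.1).1
        have h3 := mem_WS.1 h2
        rw [mem_coe, mem_WS]
        have h4 := window_image h3.1
        rw [h0.2] at h4
        exact ⟨h4, hmap x h3.2 h1.2⟩
      · intro x hx y hy hxy
        have h0 := mem_sdiff.1 (mem_filter.1 hx).1
        have h0' := mem_sdiff.1 (mem_filter.1 hy).1
        exact hinj x (mem_WS.1 (mem_filter.1 h0.1).1).2 y (mem_WS.1 (mem_filter.1 h0'.1).1).2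
          h0.2 h0'.2 hxy
  refine (sum_le_sum hle).trans ?_
  rw [sum_const, card_range, smul_eq_mul]

theorem rec_step' {S : Set ℤ} (hS : Tame S) (a : ℤ) (k k' : ℕ) (θ : ℝ) (M : ℕ)
    (h1 : 1 / 2 < θ) (h2 : θ < 1)
    (hk : θ * k * Real.log 3 ≤ k' * Real.log 2) (hM : ∀ b, (WS S b (2 ^ k')).card ≤ M) :
    ((WS S a (2 ^ k)).card : ℝ) ≤ (k + 1) * (3 * M) + k + Real.exp (k * Real.binEntropy θ) := by
  have a1 := high_le' S a k θ h1 h2
  have b := low_le' hS a k k' θ M hk hM
  have c : ((WS S a (2 ^ k)).filter fun x => (od k x : ℝ) ≤ θ * k).card +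
      ((WS S a (2 ^ k)).filter fun x => θ * k < (od k x : ℝ)).card = (WS S a (2 ^ k)).card := by
    rw [← card_filter_add_card_filter_not (s := WS S a (2 ^ k)) (p := fun x => (od k x : ℝ) ≤ θ * k)]
    simp only [not_le]
  have b' : (((WS S a (2 ^ k)).filter fun x => (od k x : ℝ) ≤ θ * k).card : ℝ) ≤
      (k + 1) * (3 * M) + k := by
    exact_mod_cast b
  have c' : (((WS S a (2 ^ k)).filter fun x => (od k x : ℝ) ≤ θ * k).card : ℝ) +
      (((WS S a (2 ^ k)).filter fun x => θ * k < (od k x : ℝ)).card : ℝ) = (WS S a (2 ^ k)).card := by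
    exact_mod_cast c
  linarith

/-- uniform exponential bound for windows -/
theorem WS_bound (θ : ℝ) (h1 : 1 / 2 < θ) (h2 : θ * Real.log 3 < Real.log 2) :
    ∃ C : ℝ, 0 < C ∧ ∀ S : Set ℤ, Tame S → ∀ (k : ℕ) (a : ℤ),
      ((WS S a (2 ^ k)).card : ℝ) ≤ C * Real.exp (k * Real.binEntropy θ) := by
  have hl3 : 0 < Real.log 3 := Real.log_pos (by norm_num)
  have hl2 : 0 < Real.log 2 := Real.log_pos (by norm_num)
  have hθ1 : θ < 1 := by
    by_contra h
    have h : 1 ≤ θ := not_lt.1 h
    have : Real.log 2 < Real.log 3 := Real.log_lt_log (by norm_num) (by norm_num)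
    nlinarith
  have hθ0 : 0 < θ := by linarith
  set H := Real.binEntropy θ with hH
  have hHpos : 0 < H := Real.binEntropy_pos hθ0 hθ1
  set ε : ℝ := 1 - θ * Real.log 3 / Real.log 2 with hε
  have hε0 : 0 < ε := by
    rw [hε, sub_pos, div_lt_one hl2]; exact h2
  -- large k
  have htend : Filter.Tendsto (fun k : ℕ => (3 * (k : ℝ) + 4) * Real.exp (H - H * ε * k))
      Filter.atTop (nhds 0) := by
    have hb : 0 < H * ε := by positivity
    have t1 : Filter.Tendsto (fun x : ℝ => x ^ 1 * Real.exp (-(H * ε) * x)) Filter.atTop (nhds 0) := by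
      have := Real.tendsto_pow_mul_exp_neg_atTop_nhds_zero 1
      have h3 := this.comp (Filter.tendsto_id.const_mul_atTop hb)
      have h4 := h3.const_mul (1 / (H * ε))
      rw [mul_zero] at h4
      refine h4.congr ?_
      intro x
      simp only [Function.comp, id, pow_one]
      field_simp
    have t2 : Filter.Tendsto (fun x : ℝ => Real.exp (-(H * ε) * x)) Filter.atTop (nhds 0) := by
      apply Real.tendsto_exp_atBot.comp
      apply Filter.Tendsto.const_mul_atTop_of_neg (by linarith) Filter.tendsto_id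
    have t3 : Filter.Tendsto (fun x : ℝ => Real.exp H * (3 * (x ^ 1 * Real.exp (-(H * ε) * x)) +
        4 * Real.exp (-(H * ε) * x))) Filter.atTop (nhds 0) := by
      have := ((t1.const_mul 3).add (t2.const_mul 4)).const_mul (Real.exp H)
      simpa using this
    have t4 := t3.comp tendsto_natCast_atTop_atTop
    refine t4.congr ?_
    intro k
    simp only [Function.comp, pow_one]
    rw [show H - H * ε * (k : ℝ) = H + -(H * ε) * k by ring, Real.exp_add]
    ring
  obtain ⟨k0, hk0⟩ := Filter.eventually_atTop.1 (htend.eventually (gt_mem_nhds (show (0 : ℝ) < 1 / 2 by norm_num)))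
  set C : ℝ := 2 ^ k0 + 2 * (1 + 1 / H) + 1 with hC
  have hCpos : 0 < C := by positivity
  refine ⟨C, hCpos, ?_⟩
  intro S hS k
  induction k using Nat.strong_induction_on with
  | _ k ih =>
    intro a
    have h3 : 1 ≤ Real.exp (k * H) := by
      rw [← Real.exp_zero]; apply Real.exp_le_exp.2; positivity
    rcases lt_or_ge k k0 with hk | hk
    · have hle : ((WS S a (2 ^ k)).card : ℝ) ≤ 2 ^ k0 := by
        have h5 : ((WS S a (2 ^ k)).card : ℝ) ≤ 2 ^ k := by exact_mod_cast WS_card_le S a k
        have h6 : (2 : ℝ) ^ k ≤ 2 ^ k0 := pow_le_pow_right₀ (by norm_num) hk.le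
        linarith
      have h7 : (2 : ℝ) ^ k0 ≤ C := by
        rw [hC]
        have : 0 < 1 / H := by positivity
        linarith
      nlinarith
    · have hk1 := hk0 k hk
      -- k' := ⌈θ k log 3 / log 2⌉
      set k' := ⌈θ * k * Real.log 3 / Real.log 2⌉₊ with hk'
      have hkc : θ * k * Real.log 3 ≤ k' * Real.log 2 := by
        have := Nat.le_ceil (θ * k * Real.log 3 / Real.log 2)
        rwa [div_le_iff₀ hl2] at this
      have hk'u : (k' : ℝ) ≤ (1 - ε) * k + 1 := by
        have := (Nat.ceil_lt_add_one (show 0 ≤ θ * k * Real.log 3 / Real.log 2 by positivity)).le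
        have e : (1 - ε) * k = θ * k * Real.log 3 / Real.log 2 := by
          rw [hε]; ring
        rw [e]; exact this
      -- k' < k
      have hlt : k' < k := by
        by_contra hc
        have hc : k ≤ k' := not_lt.1 hc
        have hcr : (k : ℝ) ≤ k' := by exact_mod_cast hc
        have h8 : ε * k ≤ 1 := by linarith
        have h9 : 1 ≤ Real.exp (H - H * ε * k) := by
          rw [← Real.exp_zero]
          apply Real.exp_le_exp.2
          nlinarith
        have h10 : (0 : ℝ) ≤ k := Nat.cast_nonneg k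
        nlinarith
      set M := ⌊C * Real.exp (k' * H)⌋₊ with hM
      have hMb : ∀ b, (WS S b (2 ^ k')).card ≤ M := by
        intro b
        exact Nat.le_floor (ih k' hlt b)
      have hMu : (M : ℝ) ≤ C * Real.exp (k' * H) := Nat.floor_le (by positivity)
      have hr := rec_step' hS a k k' θ M h1 hθ1 hkc hMb
      rw [← hH] at hr
      have e1 : Real.exp (k' * H) ≤ Real.exp (k * H) * Real.exp (H - H * ε * k) := by
        rw [← Real.exp_add]
        apply Real.exp_le_exp.2
        nlinarith
      have hkH : (k : ℝ) ≤ 1 / H * Real.exp (k * H) := by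
        have h7 : (k : ℝ) * H ≤ Real.exp (k * H) := by
          have := Real.add_one_le_exp ((k : ℝ) * H)
          linarith
        rw [one_div, ← div_eq_inv_mul, le_div_iff₀ hHpos]
        exact h7
      have hE : 0 < Real.exp (k * H) := Real.exp_pos _
      have hE2 : 0 < Real.exp (H - H * ε * k) := Real.exp_pos _
      have hkn : (0 : ℝ) ≤ k := Nat.cast_nonneg k
      have hs1 : ((k : ℝ) + 1) * (3 * M) ≤ C * Real.exp (k * H) / 2 := by
        have s1 : ((k : ℝ) + 1) * (3 * M) ≤ (k + 1) * (3 * (C * (Real.exp (k * H) * Real.exp (H - H * ε * k)))) := by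
          apply mul_le_mul_of_nonneg_left _ (by positivity)
          apply mul_le_mul_of_nonneg_left _ (by norm_num)
          exact hMu.trans (mul_le_mul_of_nonneg_left e1 hCpos.le)
        have s2 : ((k : ℝ) + 1) * (3 * (C * (Real.exp (k * H) * Real.exp (H - H * ε * k)))) =
            C * Real.exp (k * H) * ((3 * k + 3) * Real.exp (H - H * ε * k)) := by ring
        have s3 : (3 * (k : ℝ) + 3) * Real.exp (H - H * ε * k) ≤ 1 / 2 := by
          nlinarith
        rw [s2] at s1
        have s4 : C * Real.exp (k * H) * ((3 * k + 3) * Real.exp (H - H * ε * k)) ≤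
            C * Real.exp (k * H) * (1 / 2) := mul_le_mul_of_nonneg_left s3 (by positivity)
        linarith
      have hs2 : (k : ℝ) + Real.exp (k * H) ≤ C * Real.exp (k * H) / 2 := by
        have s5 : (1 / H + 1) * 2 ≤ C := by
          rw [hC]
          have : (0 : ℝ) < 2 ^ k0 := by positivity
          linarith
        nlinarith
      linarith

end Pool.Agent.W42
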