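import Mathlib
import Pool.Agent.W42.Local
import Pool.Agent.H547R3.Cyc

set_option autoImplicit false

/-!
Uniform sparsity in all intervals, and uniformly bounded sums of reciprocal distances.
-/

namespace Pool.Agent.W42

open Finset Pool.Agent.H319R2

theorem exists_pow_two {X : ℝ} (hX : 1 ≤ X) : ∃ k : ℕ, X < 2 ^ k ∧ (2 : ℝ) ^ k ≤ 2 * X := by
  refine ⟨Nat.log 2 ⌊X⌋₊ + 1, ?_, ?_⟩
  · have h1 := Nat.lt_pow_succ_log_self (b := 2) (by norm_num) ⌊X⌋₊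
    have h2 : ⌊X⌋₊ + 1 ≤ 2 ^ (Nat.log 2 ⌊X⌋₊ + 1) := h1
    have h3 : X < ⌊X⌋₊ + 1 := Nat.lt_floor_add_one X
    have h4 : ((⌊X⌋₊ + 1 : ℕ) : ℝ) ≤ ((2 ^ (Nat.log 2 ⌊X⌋₊ + 1) : ℕ) : ℝ) := by exact_mod_cast h2
    push_cast at h4
    linarith
  · have hfl : ⌊X⌋₊ ≠ 0 := by
      have : 1 ≤ ⌊X⌋₊ := Nat.one_le_floor_iff _ |>.2 hX
      omega
    have h1 := Nat.pow_log_le_self 2 hfl
    have h3 : (⌊X⌋₊ : ℝ) ≤ X := Nat.floor_le (by linarith)
    have h4 : ((2 ^ Nat.log 2 ⌊X⌋₊ : ℕ) : ℝ) ≤ (⌊X⌋₊ : ℝ) := by exact_mod_cast h1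
    push_cast at h4
    rw [pow_succ]
    linarith

/-- **Local sparsity.** -/
theorem local_sparse (η : ℝ) (hη : beta < η) : ∃ C : ℝ, 0 < C ∧ ∀ S : Set ℤ, Tame S →
    ∀ y R : ℝ, 1 ≤ R → ∀ F : Finset ℤ, (∀ x ∈ F, x ∈ S ∧ |(x : ℝ) - y| ≤ R) →
      (F.card : ℝ) ≤ C * R ^ η := by
  have hl2 : 0 < Real.log 2 := Real.log_pos (by norm_num)
  have hl3 : 0 < Real.log 3 := Real.log_pos (by norm_num)
  have h3u : Real.log 3 < 2 * Real.log 2 := by
    have h : Real.log 3 < Real.log (2 ^ 2) := Real.log_lt_log (by norm_num) (by norm_num)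
    rw [Real.log_pow] at h; push_cast at h; linarith
  unfold beta at hη
  set θ0 := Real.log 2 / Real.log 3 with hθ0
  have hhalf : 1 / 2 < θ0 := by rw [hθ0, lt_div_iff₀ hl3]; linarith
  obtain ⟨θ, hθa, hθb, hθc⟩ : ∃ θ : ℝ, 1 / 2 < θ ∧ θ < θ0 ∧ Real.binEntropy θ / Real.log 2 < η := by
    have hcont : Filter.Tendsto (fun θ => Real.binEntropy θ / Real.log 2) (nhds θ0)
        (nhds (Real.binEntropy θ0 / Real.log 2)) :=
      (Real.binEntropy_continuous.tendsto θ0).div_const _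
    have h1 : ∀ᶠ θ in nhds θ0, Real.binEntropy θ / Real.log 2 < η :=
      hcont.eventually (gt_mem_nhds hη)
    have h2 : ∀ᶠ θ in nhdsWithin θ0 (Set.Iio θ0), Real.binEntropy θ / Real.log 2 < η :=
      h1.filter_mono nhdsWithin_le_nhds
    have h3 : ∀ᶠ θ in nhdsWithin θ0 (Set.Iio θ0), 1 / 2 < θ :=
      (lt_mem_nhds hhalf : ∀ᶠ θ in nhds θ0, 1 / 2 < θ).filter_mono nhdsWithin_le_nhds
    have h4 : ∀ᶠ θ in nhdsWithin θ0 (Set.Iio θ0), θ < θ0 := self_mem_nhdsWithin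
    obtain ⟨θ, h⟩ := (h2.and (h3.and h4)).exists
    exact ⟨θ, h.2.1, h.2.2, h.1⟩
  have hθ3 : θ * Real.log 3 < Real.log 2 := by
    rwa [hθ0, lt_div_iff₀ hl3] at hθb
  obtain ⟨C, hC0, hC⟩ := WS_bound θ hθa hθ3
  have hηpos : 0 < η := by
    have hθ1 : θ < 1 := by
      have : θ0 < 1 := by
        rw [hθ0, div_lt_one hl3]; exact Real.log_lt_log (by norm_num) (by norm_num)
      linarith
    have := Real.binEntropy_pos (show 0 < θ by linarith) hθ1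
    have : 0 < Real.binEntropy θ / Real.log 2 := by positivity
    linarith
  refine ⟨C * 6 ^ η, by positivity, ?_⟩
  intro S hS y R hR F hF
  obtain ⟨k, hk1, hk2⟩ := exists_pow_two (show (1 : ℝ) ≤ 3 * R by linarith)
  have hsub : F ⊆ WS S ⌊y - R⌋ (2 ^ k) := by
    intro x hx
    rw [mem_WS]
    have h1 := abs_le.1 (hF x hx).2
    refine ⟨⟨?_, ?_⟩, (hF x hx).1⟩
    · apply Int.floor_le_iff.2
      linarith [h1.1]
    · have h2 : y - R < ⌊y - R⌋ + 1 := Int.lt_floor_add_one _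
      have h3 : (x : ℝ) < ((⌊y - R⌋ + 2 ^ k : ℤ) : ℝ) := by
        push_cast
        linarith [h1.2]
      exact_mod_cast h3
  have hcard' : (F.card : ℝ) ≤ (WS S ⌊y - R⌋ (2 ^ k)).card := by exact_mod_cast card_le_card hsub
  refine hcard'.trans ((hC S hS k _).trans ?_)
  rw [mul_assoc]
  apply mul_le_mul_of_nonneg_left _ hC0.le
  rw [← Real.mul_rpow (by norm_num) (by linarith)]
  calc Real.exp (k * Real.binEntropy θ) ≤ Real.exp (k * (η * Real.log 2)) := by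
        apply Real.exp_le_exp.2
        apply mul_le_mul_of_nonneg_left _ (Nat.cast_nonneg _)
        rw [div_lt_iff₀ hl2] at hθc
        exact hθc.le
    _ = ((2 : ℝ) ^ k) ^ η := by
        rw [← Real.rpow_natCast, ← Real.rpow_mul (by norm_num), Real.rpow_def_of_pos (by norm_num)]
        congr 1; ring
    _ ≤ (6 * R) ^ η := by
        apply Real.rpow_le_rpow (by positivity) _ hηpos.le
        linarith

/-- **Reciprocal distances.** -/
theorem local_recip (η : ℝ) (hη : beta < η) (hη1 : η < 1) : ∃ C : ℝ, 0 < C ∧ ∀ S : Set ℤ, Tame S →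
    ∀ y N : ℝ, 1 ≤ N → ∀ F : Finset ℤ, (∀ x ∈ F, x ∈ S ∧ N ≤ |(x : ℝ) - y|) →
      ∑ x ∈ F, 1 / |(x : ℝ) - y| ≤ C * N ^ (η - 1) := by
  classical
  obtain ⟨C, hC0, hC⟩ := local_sparse η hη
  set ρ : ℝ := 2 ^ (η - 1) with hρ
  have hρ0 : 0 < ρ := by positivity
  have hρ1 : ρ < 1 := Real.rpow_lt_one_of_one_lt_of_neg (by norm_num) (by linarith)
  refine ⟨C * 2 ^ η / (1 - ρ), by
    have : 0 < 1 - ρ := by linarith
    positivity, ?_⟩
  intro S hS y N hN F hF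
  have hN0 : 0 < N := by linarith
  set lev : ℤ → ℕ := fun x => Nat.log 2 ⌊|(x : ℝ) - y| / N⌋₊ with hlev
  have hlevel : ∀ x ∈ F, 2 ^ (lev x) * N ≤ |(x : ℝ) - y| ∧ |(x : ℝ) - y| ≤ 2 ^ (lev x + 1) * N := by
    intro x hx
    have h1 : 1 ≤ |(x : ℝ) - y| / N := by rw [one_le_div hN0]; exact (hF x hx).2
    have hfl : ⌊|(x : ℝ) - y| / N⌋₊ ≠ 0 := by
      have : 1 ≤ ⌊|(x : ℝ) - y| / N⌋₊ := Nat.one_le_floor_iff _ |>.2 h1
      omega
    constructor
    · have h2 : 2 ^ lev x ≤ ⌊|(x : ℝ) - y| / N⌋₊ := Nat.pow_log_le_self 2 hfl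
      have h3 : (⌊|(x : ℝ) - y| / N⌋₊ : ℝ) ≤ |(x : ℝ) - y| / N := Nat.floor_le (by positivity)
      have h4 : ((2 ^ lev x : ℕ) : ℝ) ≤ (⌊|(x : ℝ) - y| / N⌋₊ : ℝ) := by exact_mod_cast h2
      push_cast at h4
      have h5 := h4.trans h3
      rwa [le_div_iff₀ hN0] at h5
    · have h2 : ⌊|(x : ℝ) - y| / N⌋₊ + 1 ≤ 2 ^ (lev x + 1) :=
        Nat.lt_pow_succ_log_self (b := 2) (by norm_num) ⌊|(x : ℝ) - y| / N⌋₊
      have h3 : |(x : ℝ) - y| / N < ⌊|(x : ℝ) - y| / N⌋₊ + 1 := Nat.lt_floor_add_one _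
      have h4 : ((⌊|(x : ℝ) - y| / N⌋₊ + 1 : ℕ) : ℝ) ≤ ((2 ^ (lev x + 1) : ℕ) : ℝ) := by
        exact_mod_cast h2
      push_cast at h4
      have h5 : |(x : ℝ) - y| / N ≤ 2 ^ (lev x + 1) := by linarith
      rwa [div_le_iff₀ hN0] at h5
  set I := F.sup lev + 1 with hI
  have hmaps : ∀ x ∈ F, lev x ∈ range I := by
    intro x hx
    rw [mem_range, hI]
    exact Nat.lt_succ_of_le (le_sup hx)
  rw [← sum_fiberwise_of_maps_to hmaps]
  have hterm : ∀ i ∈ range I, ∑ x ∈ F with lev x = i, 1 / |(x : ℝ) - y| ≤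
      C * 2 ^ η * N ^ (η - 1) * ρ ^ i := by
    intro i _
    set G := F.filter (fun x => lev x = i) with hG
    have hGc : (G.card : ℝ) ≤ C * (2 ^ (i + 1) * N) ^ η := by
      apply hC S hS y (2 ^ (i + 1) * N)
      · have : (1 : ℝ) ≤ 2 ^ (i + 1) := one_le_pow₀ (by norm_num)
        nlinarith
      · intro x hx
        rw [hG, mem_filter] at hx
        refine ⟨(hF x hx.1).1, ?_⟩
        have := (hlevel x hx.1).2
        rwa [hx.2] at this
    have hsum : ∑ x ∈ G, 1 / |(x : ℝ) - y| ≤ G.card * (1 / (2 ^ i * N)) := by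
      rw [← nsmul_eq_mul]
      apply sum_le_card_nsmul
      intro x hx
      rw [hG, mem_filter] at hx
      have := (hlevel x hx.1).1
      rw [hx.2] at this
      exact one_div_le_one_div_of_le (by positivity) this
    refine hsum.trans ((mul_le_mul_of_nonneg_right hGc (by positivity)).trans (le_of_eq ?_))
    have e1 : ((2 : ℝ) ^ (i + 1) * N) ^ η = 2 ^ η * (2 ^ i * N) ^ η := by
      rw [← Real.mul_rpow (by norm_num) (by positivity), pow_succ]; congr 1; ring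
    have e2 : ((2 : ℝ) ^ i * N) ^ η * (1 / (2 ^ i * N)) = (2 ^ i * N) ^ (η - 1) := by
      rw [Real.rpow_sub_one (by positivity)]; ring
    have e3 : ((2 : ℝ) ^ i * N) ^ (η - 1) = ρ ^ i * N ^ (η - 1) := by
      rw [Real.mul_rpow (by positivity) hN0.le, hρ, ← Real.rpow_natCast (2 ^ (η - 1)) i,
        ← Real.rpow_mul (by norm_num), ← Real.rpow_natCast 2 i, ← Real.rpow_mul (by norm_num)]
      congr 2; ring
    calc C * ((2 : ℝ) ^ (i + 1) * N) ^ η * (1 / (2 ^ i * N))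
        = C * 2 ^ η * (((2 : ℝ) ^ i * N) ^ η * (1 / (2 ^ i * N))) := by rw [e1]; ring
      _ = C * 2 ^ η * (ρ ^ i * N ^ (η - 1)) := by rw [e2, e3]
      _ = _ := by ring
  refine (sum_le_sum hterm).trans ?_
  rw [← mul_sum]
  have hgeom : ∑ i ∈ range I, ρ ^ i ≤ 1 / (1 - ρ) := by
    have h1 : ∑ i ∈ range I, ρ ^ i = (1 - ρ ^ I) / (1 - ρ) := by
      rw [geom_sum_eq hρ1.ne, ← neg_div_neg_eq]; congr 1 <;> ring
    rw [h1]
    apply div_le_div_of_nonneg_right _ (by linarith)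
    have : 0 < ρ ^ I := by positivity
    linarith
  calc C * 2 ^ η * N ^ (η - 1) * ∑ i ∈ range I, ρ ^ i
      ≤ C * 2 ^ η * N ^ (η - 1) * (1 / (1 - ρ)) :=
        mul_le_mul_of_nonneg_left hgeom (by positivity)
    _ = C * 2 ^ η / (1 - ρ) * N ^ (η - 1) := by ring

end Pool.Agent.W42
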